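import Pool.Agent.N979.CAP.Stm

/-! # Project CAP (helper979), task EXI (helper222): existence by minimisation -/

set_option autoImplicit false

namespace Pool.Agent.N222.CAP_EXI

open Real Set Filter Topology Finset
open Pool.Agent.N979.CAP

/-- the primitive of `arcsin` -/
noncomputable def FF (t : ℝ) : ℝ := t * arcsin t + √(1 - t ^ 2)

theorem FF_cont : Continuous FF := by
  unfold FF
  exact (continuous_id.mul Real.continuous_arcsin).add
    ((continuous_const.sub (continuous_pow 2)).sqrt)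

theorem FF_deriv {t : ℝ} (h1 : -1 < t) (h2 : t < 1) : HasDerivAt FF (arcsin t) t := by
  have hpos : 0 < 1 - t ^ 2 := by nlinarith
  have h3 := (hasDerivAt_id t).mul (Real.hasDerivAt_arcsin h1.ne' h2.ne)
  have h4 := ((hasDerivAt_pow 2 t).const_sub 1).sqrt hpos.ne'
  have h5 := h3.add h4
  have hs : √(1 - t ^ 2) ≠ 0 := (Real.sqrt_pos.2 hpos).ne'
  refine h5.congr_deriv ?_
  simp only [id_eq, one_mul, Nat.cast_ofNat]
  field_simp
  ring

theorem dt_sq (x y θ : ℝ) : dt x y θ ^ 2 + (x * sin θ - y * cos θ) ^ 2 = x ^ 2 + y ^ 2 := by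
  unfold dt
  linear_combination (x ^ 2 + y ^ 2) * sin_sq_add_cos_sq θ

theorem dt_lt {x y s₁ : ℝ} (h : x ^ 2 + y ^ 2 ≤ s₁ ^ 2) (h0 : 0 < s₁) (h1 : s₁ < 1) (θ : ℝ) :
    -1 < dt x y θ ∧ dt x y θ < 1 := by
  have h2 := dt_sq x y θ
  have h3 : dt x y θ ^ 2 < 1 := by nlinarith [sq_nonneg (x * sin θ - y * cos θ)]
  exact abs_lt.1 ((sq_lt_one_iff_abs_lt_one _).1 h3)

/-- the function to be minimised -/
noncomputable def Ph (N : ℕ) (z1 z2 x y : ℝ) : ℝ :=
  π / N * ∑ j ∈ range N, FF (dt x y (th N j)) - z1 * x - z2 * y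

theorem Ph_cont (N : ℕ) (z1 z2 : ℝ) : Continuous (fun p : ℝ × ℝ => Ph N z1 z2 p.1 p.2) := by
  unfold Ph
  refine ((continuous_const.mul (continuous_finsetSum _ fun j _ => ?_)).sub
    (continuous_const.mul continuous_fst)).sub (continuous_const.mul continuous_snd)
  refine FF_cont.comp ?_
  unfold dt
  exact (continuous_fst.mul continuous_const).add (continuous_snd.mul continuous_const)

theorem line_deriv (N : ℕ) (z1 z2 x y u v : ℝ) (h : ∀ θ, -1 < dt x y θ ∧ dt x y θ < 1) :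
    HasDerivAt (fun t : ℝ => Ph N z1 z2 (x + t * u) (y + t * v))
      (u * (Z1 N x y - z1) + v * (Z2 N x y - z2)) 0 := by
  have hlin : ∀ a b : ℝ, HasDerivAt (fun t : ℝ => a + t * b) b 0 := by
    intro a b
    have := ((hasDerivAt_id (0 : ℝ)).mul_const b).const_add a
    rwa [one_mul] at this
  have h1 : ∀ θ, HasDerivAt (fun t : ℝ => FF (dt (x + t * u) (y + t * v) θ))
      (arcsin (dt x y θ) * dt u v θ) 0 := by
    intro θ
    have hin : HasDerivAt (fun t : ℝ => dt (x + t * u) (y + t * v) θ) (dt u v θ) 0 :=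
      ((hlin x u).mul_const (cos θ)).add ((hlin y v).mul_const (sin θ))
    have hF : HasDerivAt FF (arcsin (dt x y θ)) (dt (x + 0 * u) (y + 0 * v) θ) := by
      simp only [zero_mul, add_zero]
      exact FF_deriv (h θ).1 (h θ).2
    exact HasDerivAt.comp (h₂ := FF) (h := fun t : ℝ => dt (x + t * u) (y + t * v) θ) (0 : ℝ) hF hin
  have h2 := HasDerivAt.fun_sum (u := range N) (fun j (_ : j ∈ range N) => h1 (th N j))
  have h3 := ((h2.const_mul (π / N)).sub ((hlin x u).const_mul z1)).sub ((hlin y v).const_mul z2)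
  refine h3.congr_deriv ?_
  unfold Z1 Z2 dt
  rw [mul_sub, mul_sub]
  have e1 : π / N * ∑ j ∈ range N, arcsin (x * cos (th N j) + y * sin (th N j)) *
      (u * cos (th N j) + v * sin (th N j)) =
      u * (π / N * ∑ j ∈ range N, cos (th N j) * arcsin (x * cos (th N j) + y * sin (th N j))) +
      v * (π / N * ∑ j ∈ range N, sin (th N j) *
        arcsin (x * cos (th N j) + y * sin (th N j))) := by
    simp only [Finset.mul_sum]
    rw [← Finset.sum_add_distrib]
    apply Finset.sum_congr rfl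
    intro j _
    ring
  rw [e1]
  ring

theorem polar {x y s₁ : ℝ} (h0 : 0 < s₁) (h : x ^ 2 + y ^ 2 = s₁ ^ 2) :
    ∃ φ, x = s₁ * cos φ ∧ y = s₁ * sin φ := by
  have hn : ‖(⟨x, y⟩ : ℂ)‖ = s₁ := by
    rw [Complex.norm_def, Complex.normSq_mk]
    rw [show x * x + y * y = s₁ ^ 2 by rw [← h]; ring]
    exact Real.sqrt_sq h0.le
  refine ⟨Complex.arg ⟨x, y⟩, ?_, ?_⟩
  · have := Complex.norm_mul_cos_arg ⟨x, y⟩
    rw [hn] at this
    exact this.symm
  · have := Complex.norm_mul_sin_arg ⟨x, y⟩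
    rw [hn] at this
    exact this.symm

theorem main : S_EXI := by
  intro N _ s₁ h0 h1 z1 z2 hz
  set K : Set (ℝ × ℝ) := {p | p.1 ^ 2 + p.2 ^ 2 ≤ s₁ ^ 2} with hK
  have hKc : IsCompact K := by
    have hcl : IsClosed K :=
      isClosed_le ((continuous_fst.pow 2).add (continuous_snd.pow 2)) continuous_const
    refine IsCompact.of_isClosed_subset (isCompact_Icc (a := ((-1 : ℝ), (-1 : ℝ)))
      (b := ((1 : ℝ), (1 : ℝ)))) hcl ?_
    rintro ⟨x, y⟩ hp
    have hp' : x ^ 2 + y ^ 2 ≤ s₁ ^ 2 := hp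
    refine ⟨⟨?_, ?_⟩, ⟨?_, ?_⟩⟩ <;> simp only <;> nlinarith [sq_nonneg x, sq_nonneg y]
  have hKn : K.Nonempty := ⟨(0, 0), by show (0 : ℝ) ^ 2 + 0 ^ 2 ≤ s₁ ^ 2; nlinarith⟩
  obtain ⟨⟨x, y⟩, hp, hmin⟩ := hKc.exists_isMinOn hKn (Ph_cont N z1 z2).continuousOn
  have hp' : x ^ 2 + y ^ 2 ≤ s₁ ^ 2 := hp
  have hmin' : ∀ x' y' : ℝ, x' ^ 2 + y' ^ 2 ≤ s₁ ^ 2 → Ph N z1 z2 x y ≤ Ph N z1 z2 x' y' :=
    fun x' y' h => hmin (show (x', y') ∈ K from h)
  have hdt := dt_lt hp' h0 h1
  rcases hp'.lt_or_eq with hlt | heq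
  · -- interior minimum
    refine ⟨x, y, hlt, ?_⟩
    have key : ∀ u v : ℝ, u * (Z1 N x y - z1) + v * (Z2 N x y - z2) = 0 := by
      intro u v
      have hd := line_deriv N z1 z2 x y u v hdt
      have hloc : IsLocalMin (fun t : ℝ => Ph N z1 z2 (x + t * u) (y + t * v)) 0 := by
        have hc : Continuous (fun t : ℝ => (x + t * u) ^ 2 + (y + t * v) ^ 2) := by fun_prop
        have hev : ∀ᶠ t : ℝ in 𝓝 0, (x + t * u) ^ 2 + (y + t * v) ^ 2 < s₁ ^ 2 := by
          have := hc.tendsto 0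
          simp only [zero_mul, add_zero] at this
          exact this.eventually (gt_mem_nhds hlt)
        filter_upwards [hev] with t ht
        simp only [zero_mul, add_zero]
        exact hmin' _ _ ht.le
      exact hloc.hasDerivAt_eq_zero hd
    have k1 := key 1 0
    have k2 := key 0 1
    constructor
    · linarith
    · linarith
  · -- minimum on the boundary
    exfalso
    obtain ⟨φ, hx, hy⟩ := polar h0 heq
    have hd := line_deriv N z1 z2 x y (-x) (-y) hdt
    have hge : 0 ≤ -x * (Z1 N x y - z1) + -y * (Z2 N x y - z2) := by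
      rw [hasDerivAt_iff_tendsto_slope_zero] at hd
      have hd' := hd.mono_left (nhdsGT_le_nhdsNE (0 : ℝ))
      refine ge_of_tendsto hd' ?_
      have hev : ∀ᶠ t : ℝ in 𝓝[>] 0, t ∈ Ioo (0 : ℝ) 1 := Ioo_mem_nhdsGT (by norm_num)
      filter_upwards [hev] with t ht
      simp only [zero_add, zero_mul, add_zero, smul_eq_mul]
      refine mul_nonneg (inv_nonneg.2 ht.1.le) ?_
      rw [sub_nonneg]
      refine hmin' _ _ ?_
      have e : (x + t * -x) ^ 2 + (y + t * -y) ^ 2 = (1 - t) ^ 2 * (x ^ 2 + y ^ 2) := by ring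
      rw [e, heq]
      have h2 : (1 - t) ^ 2 ≤ 1 := by nlinarith [ht.1, ht.2]
      nlinarith [sq_nonneg s₁]
    have hzφ := hz φ
    have e1 : x * Z1 N x y + y * Z2 N x y =
        s₁ * (π / N * ∑ j ∈ range N, cos (th N j - φ) * arcsin (s₁ * cos (th N j - φ))) := by
      unfold Z1 Z2
      simp only [Finset.mul_sum]
      rw [← Finset.sum_add_distrib]
      apply Finset.sum_congr rfl
      intro j _
      have e2 : dt x y (th N j) = s₁ * cos (th N j - φ) := by
        unfold dt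
        rw [cos_sub, hx, hy]
        ring
      rw [e2, cos_sub, hx, hy]
      ring
    have e3 : z1 * x + z2 * y = s₁ * (z1 * cos φ + z2 * sin φ) := by
      rw [hx, hy]
      ring
    have h4 : s₁ * (z1 * cos φ + z2 * sin φ) <
        s₁ * (π / N * ∑ j ∈ range N, cos (th N j - φ) * arcsin (s₁ * cos (th N j - φ))) :=
      mul_lt_mul_of_pos_left hzφ h0
    nlinarith

end Pool.Agent.N222.CAP_EXI
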