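import Pool.Agent.N988.EA.Stm5

/-!
# Project EA, task BR: the law of a branch is unimodal (helper222 for helper988)

For `a, b > 0` the weights `cosh 2b / (cosh 2a + cosh 2b)` and `cosh 2a / (cosh 2a + cosh 2b)` have
sum one; the first one is `coth 2b` times the derivative of `ph a b` with respect to `a`.
-/

set_option autoImplicit false

open MeasureTheory Set Filter
open scoped ENNReal Topology

namespace Pool.Agent.N222.EA

open Pool.Agent.N988.EA

noncomputable section

/-- The inverse function of `a ↦ ph a b`. -/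
def psi (t b : ℝ) : ℝ := Real.log (Real.sinh (b + t) / Real.sinh (b - t)) / 2

lemma ph_comm (a b : ℝ) : ph b a = ph a b := by
  unfold ph
  have h1 : Real.cosh (b - a) = Real.cosh (a - b) := by
    rw [← Real.cosh_neg]
    ring_nf
  rw [h1, add_comm]

lemma ph_neg (a b : ℝ) : ph (-a) b = -ph a b := by
  unfold ph
  have h1 : Real.cosh (-a + b) = Real.cosh (a - b) := by
    rw [← Real.cosh_neg]
    ring_nf
  have h2 : Real.cosh (-a - b) = Real.cosh (a + b) := by
    rw [← Real.cosh_neg]
    ring_nf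
  rw [h1, h2, Real.log_div (Real.cosh_pos _).ne' (Real.cosh_pos _).ne',
    Real.log_div (Real.cosh_pos _).ne' (Real.cosh_pos _).ne']
  ring

lemma ph_neg' (a b : ℝ) : ph a (-b) = -ph a b := by
  rw [← ph_comm, ph_neg, ph_comm]

lemma meas_ph : Measurable fun p : ℝ × ℝ => ph p.1 p.2 := by
  unfold ph
  fun_prop

lemma meas_psi : Measurable fun p : ℝ × ℝ => psi p.1 p.2 := by
  unfold psi
  fun_prop

/-- Sections of a measurable function. -/
lemma sl {E : Type*} [MeasurableSpace E] {F : ℝ → ℝ → E} (hF : Measurable fun p : ℝ × ℝ => F p.1 p.2)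
    (b : ℝ) : Measurable fun a => F a b := by
  have h : Measurable fun a : ℝ => (a, b) := measurable_prodMk_right
  have h2 := hF.comp h
  exact h2

/-- Sections of a measurable function. -/
lemma sr {E : Type*} [MeasurableSpace E] {F : ℝ → ℝ → E} (hF : Measurable fun p : ℝ × ℝ => F p.1 p.2)
    (a : ℝ) : Measurable fun b => F a b := by
  have h : Measurable fun b : ℝ => (a, b) := measurable_prodMk_left
  have h2 := hF.comp h
  exact h2

/-- Exchange of the variables. -/
lemma sw {E : Type*} [MeasurableSpace E] {F : ℝ → ℝ → E} (hF : Measurable fun p : ℝ × ℝ => F p.1 p.2) :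
    Measurable fun p : ℝ × ℝ => F p.2 p.1 := by
  have h : Measurable fun p : ℝ × ℝ => (p.2, p.1) := measurable_snd.prodMk measurable_fst
  have h2 := hF.comp h
  exact h2

lemma exp_two (x : ℝ) : Real.exp (2 * x) = Real.exp x * Real.exp x := by
  rw [← Real.exp_add]
  ring_nf

lemma exp_ph (a b : ℝ) : Real.exp (2 * ph a b) = Real.cosh (a + b) / Real.cosh (a - b) := by
  unfold ph
  rw [mul_div_cancel₀ _ two_ne_zero, Real.exp_log]
  exact div_pos (Real.cosh_pos _) (Real.cosh_pos _)

lemma exp_psi {t b : ℝ} (h1 : 0 < t) (h2 : t < b) :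
    Real.exp (2 * psi t b) = Real.sinh (b + t) / Real.sinh (b - t) := by
  unfold psi
  rw [mul_div_cancel₀ _ two_ne_zero, Real.exp_log]
  exact div_pos (Real.sinh_pos_iff.2 (by linarith)) (Real.sinh_pos_iff.2 (by linarith))

lemma ph_pos {a b : ℝ} (ha : 0 < a) (hb : 0 < b) : 0 < ph a b := by
  have h1 : Real.exp 0 < Real.exp (2 * ph a b) := by
    rw [Real.exp_zero, exp_ph, one_lt_div (Real.cosh_pos _)]
    rw [Real.cosh_lt_cosh, abs_of_pos (by linarith : 0 < a + b), abs_lt]
    constructor <;> linarith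
  have := Real.exp_lt_exp.1 h1
  linarith

lemma ph_lt {a b : ℝ} (hb : 0 < b) : ph a b < b := by
  have h1 : Real.exp (2 * ph a b) < Real.exp (2 * b) := by
    rw [exp_ph, div_lt_iff₀ (Real.cosh_pos _)]
    rw [Real.cosh_eq, Real.cosh_eq]
    have e1 : Real.exp (2 * b) * ((Real.exp (a - b) + Real.exp (-(a - b))) / 2) =
        (Real.exp (a + b) + Real.exp (3 * b - a)) / 2 := by
      rw [mul_div_assoc', mul_add, ← Real.exp_add, ← Real.exp_add]
      ring_nf
    rw [e1]
    have : Real.exp (-(a + b)) < Real.exp (3 * b - a) := Real.exp_lt_exp.2 (by linarith)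
    linarith
  have := Real.exp_lt_exp.1 h1
  linarith

lemma psi_ph {a b : ℝ} (ha : 0 < a) (hb : 0 < b) : psi (ph a b) b = a := by
  have h1 := ph_pos ha hb
  have h2 := ph_lt (a := a) hb
  have h3 : Real.exp (2 * psi (ph a b) b) = Real.exp (2 * a) := by
    rw [exp_psi h1 h2, div_eq_iff (Real.sinh_pos_iff.2 (by linarith)).ne']
    have hE := exp_ph a b
    obtain ⟨t, ht⟩ : ∃ t, t = ph a b := ⟨_, rfl⟩
    rw [← ht] at hE ⊢
    rw [eq_div_iff (Real.cosh_pos _).ne', Real.cosh_eq, Real.cosh_eq, exp_two] at hE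
    rw [Real.sinh_eq, Real.sinh_eq, exp_two]
    have e1 : Real.exp (b + t) = Real.exp b * Real.exp t := Real.exp_add _ _
    have e2 : Real.exp (-(b + t)) = (Real.exp b)⁻¹ * (Real.exp t)⁻¹ := by
      rw [Real.exp_neg, e1, mul_inv]
    have e3 : Real.exp (b - t) = Real.exp b * (Real.exp t)⁻¹ := by
      rw [sub_eq_add_neg, Real.exp_add, Real.exp_neg]
    have e4 : Real.exp (-(b - t)) = (Real.exp b)⁻¹ * Real.exp t := by
      rw [Real.exp_neg, e3, mul_inv, inv_inv]
    have e5 : Real.exp (a + b) = Real.exp a * Real.exp b := Real.exp_add _ _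
    have e6 : Real.exp (-(a + b)) = (Real.exp a)⁻¹ * (Real.exp b)⁻¹ := by
      rw [Real.exp_neg, e5, mul_inv]
    have e7 : Real.exp (a - b) = Real.exp a * (Real.exp b)⁻¹ := by
      rw [sub_eq_add_neg, Real.exp_add, Real.exp_neg]
    have e8 : Real.exp (-(a - b)) = (Real.exp a)⁻¹ * Real.exp b := by
      rw [Real.exp_neg, e7, mul_inv, inv_inv]
    rw [e5, e6, e7, e8] at hE
    rw [e1, e2, e3, e4]
    have p1 := Real.exp_pos a
    have p2 := Real.exp_pos b
    have p3 := Real.exp_pos t
    generalize Real.exp a = x at *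
    generalize Real.exp b = y at *
    generalize Real.exp t = z at *
    field_simp at hE ⊢
    linear_combination (norm := ring_nf) hE
  have := Real.exp_injective h3
  linarith

lemma ph_psi {t b : ℝ} (h1 : 0 < t) (h2 : t < b) : ph (psi t b) b = t := by
  have h3 : Real.exp (2 * ph (psi t b) b) = Real.exp (2 * t) := by
    rw [exp_ph, div_eq_iff (Real.cosh_pos _).ne']
    have hE := exp_psi h1 h2
    obtain ⟨a, ha⟩ : ∃ a, a = psi t b := ⟨_, rfl⟩
    rw [← ha] at hE ⊢
    rw [eq_div_iff (Real.sinh_pos_iff.2 (by linarith)).ne', Real.sinh_eq, Real.sinh_eq,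
      exp_two] at hE
    rw [Real.cosh_eq, Real.cosh_eq, exp_two]
    have e1 : Real.exp (b + t) = Real.exp b * Real.exp t := Real.exp_add _ _
    have e2 : Real.exp (-(b + t)) = (Real.exp b)⁻¹ * (Real.exp t)⁻¹ := by
      rw [Real.exp_neg, e1, mul_inv]
    have e3 : Real.exp (b - t) = Real.exp b * (Real.exp t)⁻¹ := by
      rw [sub_eq_add_neg, Real.exp_add, Real.exp_neg]
    have e4 : Real.exp (-(b - t)) = (Real.exp b)⁻¹ * Real.exp t := by
      rw [Real.exp_neg, e3, mul_inv, inv_inv]
    have e5 : Real.exp (a + b) = Real.exp a * Real.exp b := Real.exp_add _ _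
    have e6 : Real.exp (-(a + b)) = (Real.exp a)⁻¹ * (Real.exp b)⁻¹ := by
      rw [Real.exp_neg, e5, mul_inv]
    have e7 : Real.exp (a - b) = Real.exp a * (Real.exp b)⁻¹ := by
      rw [sub_eq_add_neg, Real.exp_add, Real.exp_neg]
    have e8 : Real.exp (-(a - b)) = (Real.exp a)⁻¹ * Real.exp b := by
      rw [Real.exp_neg, e7, mul_inv, inv_inv]
    rw [e1, e2, e3, e4] at hE
    rw [e5, e6, e7, e8]
    have p1 := Real.exp_pos a
    have p2 := Real.exp_pos b
    have p3 := Real.exp_pos t
    generalize Real.exp a = x at *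
    generalize Real.exp b = y at *
    generalize Real.exp t = z at *
    field_simp at hE ⊢
    linear_combination (norm := ring_nf) hE
  have := Real.exp_injective h3
  linarith

lemma psi_pos {t b : ℝ} (h1 : 0 < t) (h2 : t < b) : 0 < psi t b := by
  have h3 : Real.exp 0 < Real.exp (2 * psi t b) := by
    rw [exp_psi h1 h2, Real.exp_zero, one_lt_div (Real.sinh_pos_iff.2 (by linarith))]
    exact Real.sinh_lt_sinh.2 (by linarith)
  have := Real.exp_lt_exp.1 h3
  linarith

lemma psi_mono {t t' b : ℝ} (h1 : 0 < t) (h2 : t ≤ t') (h3 : t' < b) : psi t b ≤ psi t' b := by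
  have h4 : Real.exp (2 * psi t b) ≤ Real.exp (2 * psi t' b) := by
    rw [exp_psi h1 (by linarith), exp_psi (by linarith) h3]
    apply div_le_div₀ (Real.sinh_pos_iff.2 (by linarith)).le
    · exact Real.sinh_le_sinh.2 (by linarith)
    · exact Real.sinh_pos_iff.2 (by linarith)
    · exact Real.sinh_le_sinh.2 (by linarith)
  have := Real.exp_le_exp.1 h4
  linarith

lemma img {b : ℝ} (hb : 0 < b) : (fun a => ph a b) '' Ioi 0 = Ioo 0 b := by
  ext t
  constructor
  · rintro ⟨a, ha, rfl⟩
    exact ⟨ph_pos ha hb, ph_lt hb⟩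
  · rintro ⟨h1, h2⟩
    exact ⟨psi t b, psi_pos h1 h2, ph_psi h1 h2⟩

lemma cc2 (a b : ℝ) : 2 * (Real.cosh (a + b) * Real.cosh (a - b)) =
    Real.cosh (2 * a) + Real.cosh (2 * b) := by
  rw [Real.cosh_add, Real.cosh_sub, Real.cosh_two_mul, Real.cosh_two_mul]
  have h1 := Real.cosh_sq a
  have h2 := Real.cosh_sq b
  nlinarith

lemma der (a b : ℝ) : HasDerivAt (fun a => ph a b)
    (Real.sinh (2 * b) / (Real.cosh (2 * a) + Real.cosh (2 * b))) a := by
  have h1 : HasDerivAt (fun a => Real.cosh (a + b)) (Real.sinh (a + b)) a := by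
    simpa using ((hasDerivAt_id a).add_const b).cosh
  have h2 : HasDerivAt (fun a => Real.cosh (a - b)) (Real.sinh (a - b)) a := by
    simpa using ((hasDerivAt_id a).sub_const b).cosh
  have h3 := ((h1.div h2 (Real.cosh_pos _).ne').log
    (div_pos (Real.cosh_pos _) (Real.cosh_pos _)).ne').div_const 2
  refine h3.congr_deriv ?_
  have p1 := Real.cosh_pos (a + b)
  have p2 := Real.cosh_pos (a - b)
  have e1 : Real.sinh (2 * b) = Real.sinh (a + b) * Real.cosh (a - b) -
      Real.cosh (a + b) * Real.sinh (a - b) := by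
    rw [← Real.sinh_sub]
    ring_nf
  rw [← cc2, e1]
  simp only [Pi.div_apply]
  field_simp

/-! ### The change of variables -/

lemma r1 (c W g x y : ℝ≥0∞) : c * W * (g * (x * y)) = (y * c) * (W * (g * x)) := by ring

lemma r2 (x c g y : ℝ≥0∞) : x * c * (g * y) = g * (x * c * y) := by ring

lemma r3 (g g' x y : ℝ≥0∞) : g * (x * y) + g' * (x * y) + (g' * (x * y) + g * (x * y)) =
    2 * ((g + g') * (x * y)) := by ring

lemma r4 (g g' x : ℝ≥0∞) : 2 * (2 * ((g + g') * x)) = g * (4 * x) + g' * (4 * x) := by ring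

lemma r5 (x y g : ℝ≥0∞) : x * (y * g) = g * (x * y) := by ring

lemma r6 (u v : ℝ) (hu : 0 < u) (hv : 0 < v) (g x y : ℝ≥0∞) : g * (x * y) =
    ENNReal.ofReal (v / (u + v)) * (g * (x * y)) + ENNReal.ofReal (u / (v + u)) * (g * (y * x)) := by
  have e2 : v / (u + v) + u / (v + u) = 1 := by
    rw [add_comm v u, ← add_div, add_comm, div_self]
    positivity
  rw [mul_comm y x, ← add_mul, ← ENNReal.ofReal_add (by positivity) (by positivity), e2,
    ENNReal.ofReal_one, one_mul]

lemma r7 (u v w : ℝ) (hu : 0 < u) (hv : 0 < v) (hw : 0 < w) :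
    ENNReal.ofReal (v / (u + v)) = ENNReal.ofReal (v / w) * ENNReal.ofReal (w / (u + v)) := by
  rw [← ENNReal.ofReal_mul (by positivity)]
  congr 1
  field_simp

section Main

variable {f : ℝ → ℝ≥0∞}

/-- The inner integral. -/
lemma inner (G : ℝ → ℝ≥0∞) {b : ℝ} (hb : 0 < b) :
    ∫⁻ t in Ioo 0 b, G t * f (psi t b) =
      ∫⁻ a in Ioi 0, ENNReal.ofReal (Real.sinh (2 * b) / (Real.cosh (2 * a) + Real.cosh (2 * b))) *
        (G (ph a b) * f a) := by
  rw [← img hb, lintegral_image_eq_lintegral_abs_deriv_mul measurableSet_Ioi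
    (fun a _ => (der a b).hasDerivWithinAt) ?_ (fun t => G t * f (psi t b))]
  · refine setLIntegral_congr_fun measurableSet_Ioi fun a ha => ?_
    show ENNReal.ofReal |_| * (G (ph a b) * f (psi (ph a b) b)) = _
    rw [psi_ph ha hb, abs_of_nonneg]
    have := Real.cosh_pos (2 * a)
    have := Real.cosh_pos (2 * b)
    have := Real.sinh_pos_iff.2 (by linarith : 0 < 2 * b)
    positivity
  · intro a ha a' ha' h
    rw [← psi_ph ha hb, ← psi_ph ha' hb]
    exact congrArg (fun t => psi t b) h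

/-- The weight `coth 2b`. -/
def ct (b : ℝ) : ℝ≥0∞ := ENNReal.ofReal (Real.cosh (2 * b) / Real.sinh (2 * b))

lemma meas_ct : Measurable ct := by
  unfold ct
  fun_prop

/-- The integrand of the density. -/
def kr (f : ℝ → ℝ≥0∞) (t b : ℝ) : ℝ≥0∞ := if t < b then f b * ct b * f (psi t b) else 0

lemma meas_kr (hf : Measurable f) : Measurable fun p : ℝ × ℝ => kr f p.1 p.2 := by
  unfold kr
  have h1 := hf.comp meas_psi
  have h2 := meas_ct
  refine Measurable.ite (measurableSet_lt measurable_fst measurable_snd) ?_ measurable_const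
  exact ((hf.comp measurable_snd).mul (h2.comp measurable_snd)).mul h1

/-- A quarter of the density. -/
def h1 (f : ℝ → ℝ≥0∞) (t : ℝ) : ℝ≥0∞ := ∫⁻ b in Ioi 0, kr f t b

lemma meas_h1 (hf : Measurable f) : Measurable (h1 f) :=
  (meas_kr hf).lintegral_prod_right'

lemma anti_h1 (ha : AntitoneOn f (Ioi 0)) : AntitoneOn (h1 f) (Ioi 0) := by
  intro t ht t' ht' htt
  refine lintegral_mono fun b => ?_
  show kr f t' b ≤ kr f t b
  unfold kr
  split_ifs with c1 c2 c2
  · have h3 : f (psi t' b) ≤ f (psi t b) :=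
      ha (psi_pos ht c2) (psi_pos ht' c1) (psi_mono ht htt c1)
    gcongr
  · exact absurd (htt.trans_lt c1) c2
  · exact zero_le
  · exact le_rfl

/-- One half of the quadrant. -/
lemma half (hf : Measurable f) {G : ℝ → ℝ≥0∞} (hG : Measurable G) :
    ∫⁻ b in Ioi 0, ∫⁻ a in Ioi 0, ENNReal.ofReal (Real.cosh (2 * b) /
      (Real.cosh (2 * a) + Real.cosh (2 * b))) * (G (ph a b) * (f a * f b)) =
    ∫⁻ t in Ioi 0, G t * h1 f t := by
  have e1 : ∀ b ∈ Ioi (0 : ℝ), ∫⁻ a in Ioi 0, ENNReal.ofReal (Real.cosh (2 * b) /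
      (Real.cosh (2 * a) + Real.cosh (2 * b))) * (G (ph a b) * (f a * f b)) =
      ∫⁻ t in Ioi 0, G t * kr f t b := by
    intro b hb
    have hb' : 0 < b := hb
    have hs := Real.sinh_pos_iff.2 (by linarith : 0 < 2 * b)
    have hcb := Real.cosh_pos (2 * b)
    have e2 : ∀ a, ENNReal.ofReal (Real.cosh (2 * b) /
        (Real.cosh (2 * a) + Real.cosh (2 * b))) * (G (ph a b) * (f a * f b)) =
        (f b * ct b) * (ENNReal.ofReal (Real.sinh (2 * b) /
          (Real.cosh (2 * a) + Real.cosh (2 * b))) * (G (ph a b) * f a)) := by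
      intro a
      rw [r7 _ _ _ (Real.cosh_pos (2 * a)) hcb hs]
      exact r1 _ _ _ _ _
    rw [lintegral_congr e2]
    have hm : Measurable fun a => ENNReal.ofReal (Real.sinh (2 * b) /
        (Real.cosh (2 * a) + Real.cosh (2 * b))) * (G (ph a b) * f a) := by
      have h3 : Measurable fun a => ph a b := sl (F := ph) meas_ph b
      have hW : Measurable fun a : ℝ => ENNReal.ofReal (Real.sinh (2 * b) /
        (Real.cosh (2 * a) + Real.cosh (2 * b))) := by fun_prop
      exact hW.mul ((hG.comp h3).mul hf)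
    rw [lintegral_const_mul _ hm, ← inner G hb']
    have h4 : Measurable fun t => psi t b := sl (F := psi) meas_psi b
    have hm2 : Measurable fun t => G t * f (psi t b) := hG.mul (hf.comp h4)
    rw [← lintegral_const_mul _ hm2]
    have e4 : (Ioo 0 b : Set ℝ) = Iio b ∩ Ioi 0 := by
      ext x
      exact and_comm
    rw [e4, ← Measure.restrict_restrict measurableSet_Iio, ← lintegral_indicator measurableSet_Iio]
    refine lintegral_congr fun t => ?_
    unfold kr
    by_cases ht : t < b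
    · rw [Set.indicator_of_mem (show t ∈ Iio b from ht), if_pos ht]
      exact r2 _ _ _ _
    · rw [Set.indicator_of_notMem (show t ∉ Iio b from ht), if_neg ht, mul_zero]
  rw [setLIntegral_congr_fun measurableSet_Ioi e1, lintegral_lintegral_swap]
  · refine lintegral_congr fun t => ?_
    unfold h1
    rw [lintegral_const_mul]
    exact sr (F := kr f) (meas_kr hf) t
  · have h5 : Measurable fun p : ℝ × ℝ => kr f p.2 p.1 := sw (F := kr f) (meas_kr hf)
    have h6 : Measurable fun p : ℝ × ℝ => G p.2 := hG.comp measurable_snd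
    exact (h6.mul h5).aemeasurable

/-- The quadrant. -/
lemma quad (hf : Measurable f) {G : ℝ → ℝ≥0∞} (hG : Measurable G) :
    ∫⁻ a in Ioi 0, ∫⁻ b in Ioi 0, G (ph a b) * (f a * f b) =
      ∫⁻ t in Ioi 0, 2 * (G t * h1 f t) := by
  have hGp : Measurable fun p : ℝ × ℝ => G (ph p.1 p.2) := hG.comp meas_ph
  have e1 : ∀ a b : ℝ, G (ph a b) * (f a * f b) =
      ENNReal.ofReal (Real.cosh (2 * b) / (Real.cosh (2 * a) + Real.cosh (2 * b))) *
        (G (ph a b) * (f a * f b)) +
      ENNReal.ofReal (Real.cosh (2 * a) / (Real.cosh (2 * b) + Real.cosh (2 * a))) *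
        (G (ph b a) * (f b * f a)) := by
    intro a b
    rw [ph_comm a b]
    exact r6 _ _ (Real.cosh_pos (2 * a)) (Real.cosh_pos (2 * b)) _ _ _
  have hm : Measurable fun p : ℝ × ℝ => ENNReal.ofReal (Real.cosh (2 * p.2) /
      (Real.cosh (2 * p.1) + Real.cosh (2 * p.2))) * (G (ph p.1 p.2) * (f p.1 * f p.2)) := by
    have h2 : Measurable fun p : ℝ × ℝ => f p.1 := hf.comp measurable_fst
    have h3 : Measurable fun p : ℝ × ℝ => f p.2 := hf.comp measurable_snd
    have hW : Measurable fun p : ℝ × ℝ => ENNReal.ofReal (Real.cosh (2 * p.2) /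
      (Real.cosh (2 * p.1) + Real.cosh (2 * p.2))) := by fun_prop
    exact hW.mul (hGp.mul (h2.mul h3))
  have hm' : ∀ a : ℝ, Measurable fun b => ENNReal.ofReal (Real.cosh (2 * b) /
      (Real.cosh (2 * a) + Real.cosh (2 * b))) * (G (ph a b) * (f a * f b)) := fun a =>
    sr (F := fun a b => ENNReal.ofReal (Real.cosh (2 * b) /
      (Real.cosh (2 * a) + Real.cosh (2 * b))) * (G (ph a b) * (f a * f b))) hm a
  calc ∫⁻ a in Ioi 0, ∫⁻ b in Ioi 0, G (ph a b) * (f a * f b)
      = ∫⁻ a in Ioi 0, ∫⁻ b in Ioi 0,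
        (ENNReal.ofReal (Real.cosh (2 * b) / (Real.cosh (2 * a) + Real.cosh (2 * b))) *
          (G (ph a b) * (f a * f b)) +
        ENNReal.ofReal (Real.cosh (2 * a) / (Real.cosh (2 * b) + Real.cosh (2 * a))) *
          (G (ph b a) * (f b * f a))) :=
        lintegral_congr fun a => lintegral_congr fun b => e1 a b
    _ = ∫⁻ a in Ioi 0, ((∫⁻ b in Ioi 0,
        ENNReal.ofReal (Real.cosh (2 * b) / (Real.cosh (2 * a) + Real.cosh (2 * b))) *
          (G (ph a b) * (f a * f b))) + ∫⁻ b in Ioi 0,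
        ENNReal.ofReal (Real.cosh (2 * a) / (Real.cosh (2 * b) + Real.cosh (2 * a))) *
          (G (ph b a) * (f b * f a))) := by
        refine lintegral_congr fun a => ?_
        rw [lintegral_add_left (hm' a)]
    _ = (∫⁻ a in Ioi 0, ∫⁻ b in Ioi 0,
        ENNReal.ofReal (Real.cosh (2 * b) / (Real.cosh (2 * a) + Real.cosh (2 * b))) *
          (G (ph a b) * (f a * f b))) + ∫⁻ a in Ioi 0, ∫⁻ b in Ioi 0,
        ENNReal.ofReal (Real.cosh (2 * a) / (Real.cosh (2 * b) + Real.cosh (2 * a))) *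
          (G (ph b a) * (f b * f a)) := by
        rw [lintegral_add_left]
        exact hm.lintegral_prod_right'
    _ = (∫⁻ t in Ioi 0, G t * h1 f t) + ∫⁻ t in Ioi 0, G t * h1 f t := by
        rw [half hf hG]
        congr 1
        rw [lintegral_lintegral_swap hm.aemeasurable, half hf hG]
    _ = ∫⁻ t in Ioi 0, 2 * (G t * h1 f t) := by
        have hq : Measurable fun t => G t * h1 f t := hG.mul (meas_h1 hf)
        rw [lintegral_const_mul _ hq, two_mul]

/-- Splitting of the line. -/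
lemma split {F : ℝ → ℝ≥0∞} (hF : Measurable F) :
    ∫⁻ x, F x = ∫⁻ x in Ioi 0, (F x + F (-x)) := by
  rw [lintegral_add_left hF]
  have h1 : ∫⁻ x in Ioi 0, F (-x) = ∫⁻ x in Iio 0, F x := by
    have h2 := (Measure.measurePreserving_neg (volume : Measure ℝ)).setLIntegral_comp_preimage
      (s := Iio 0) measurableSet_Iio hF
    rw [← h2]
    congr 2
    ext x
    simp
  rw [h1]
  have h3 := lintegral_add_compl F (measurableSet_Ioi (a := (0 : ℝ))) (μ := volume)
  rw [← h3, Set.compl_Ioi]
  congr 1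
  exact (setLIntegral_congr Iio_ae_eq_Iic).symm

/-- The whole plane. -/
lemma plane (hf : Measurable f) (he : ∀ x, f (-x) = f x) {G : ℝ → ℝ≥0∞} (hG : Measurable G) :
    ∫⁻ a, ∫⁻ b, G (ph a b) * (f a * f b) = ∫⁻ t, G t * (4 * h1 f |t|) := by
  have hGp : Measurable fun p : ℝ × ℝ => G (ph p.1 p.2) := hG.comp meas_ph
  have hGn : Measurable fun t => G t + G (-t) := hG.add (hG.comp measurable_neg)
  have hm : Measurable fun p : ℝ × ℝ => G (ph p.1 p.2) * (f p.1 * f p.2) := by
    have h2 : Measurable fun p : ℝ × ℝ => f p.1 := hf.comp measurable_fst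
    have h3 : Measurable fun p : ℝ × ℝ => f p.2 := hf.comp measurable_snd
    exact hGp.mul (h2.mul h3)
  have hm1 : ∀ a : ℝ, Measurable fun b => G (ph a b) * (f a * f b) := fun a =>
    sr (F := fun a b => G (ph a b) * (f a * f b)) hm a
  have hm2 : Measurable fun a => ∫⁻ b, G (ph a b) * (f a * f b) := hm.lintegral_prod_right'
  rw [split hm2]
  have e1 : ∀ a : ℝ, (∫⁻ b, G (ph a b) * (f a * f b)) + (∫⁻ b, G (ph (-a) b) * (f (-a) * f b)) =
      ∫⁻ b in Ioi 0, 2 * ((G (ph a b) + G (-ph a b)) * (f a * f b)) := by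
    intro a
    rw [split (hm1 a), split (hm1 (-a)), ← lintegral_add_left]
    · refine lintegral_congr fun b => ?_
      rw [ph_neg, ph_neg', ph_neg', ph_neg, neg_neg, he, he]
      exact r3 _ _ _ _
    · exact (hm1 a).add ((hm1 a).comp measurable_neg)
  rw [lintegral_congr e1]
  have e2 : ∀ a : ℝ, ∫⁻ b in Ioi 0, 2 * ((G (ph a b) + G (-ph a b)) * (f a * f b)) =
      2 * ∫⁻ b in Ioi 0, (G (ph a b) + G (-ph a b)) * (f a * f b) := by
    intro a
    rw [lintegral_const_mul]
    have h4 : Measurable fun b => ph a b := sr (F := ph) meas_ph a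
    exact (hGn.comp h4).mul (measurable_const.mul hf)
  rw [lintegral_congr e2, lintegral_const_mul]
  · rw [quad hf (G := fun t => G t + G (-t)) hGn, ← lintegral_const_mul, split]
    · refine setLIntegral_congr_fun measurableSet_Ioi fun t ht => ?_
      show 2 * (2 * ((G t + G (-t)) * h1 f t)) = G t * (4 * h1 f |t|) + G (-t) * (4 * h1 f |(-t)|)
      rw [abs_neg, abs_of_pos ht]
      exact r4 _ _ _
    · exact hG.mul (measurable_const.mul ((meas_h1 hf).comp measurable_id.abs))
    · exact measurable_const.mul (hGn.mul (meas_h1 hf))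
  · have h5 : Measurable fun p : ℝ × ℝ => (G (ph p.1 p.2) + G (-ph p.1 p.2)) * (f p.1 * f p.2) := by
      have h2 : Measurable fun p : ℝ × ℝ => f p.1 := hf.comp measurable_fst
      have h3 : Measurable fun p : ℝ × ℝ => f p.2 := hf.comp measurable_snd
      exact (hGn.comp meas_ph).mul (h2.mul h3)
    exact h5.lintegral_prod_right'

end Main

/-- **BR**: the law of a branch is unimodal. -/
theorem t_BR : S_BR := by
  rintro ν hν ⟨f, hf, he, ha, rfl⟩
  refine ⟨fun t => 4 * h1 f |t|, measurable_const.mul ((meas_h1 hf).comp measurable_id.abs),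
    fun t => by show 4 * h1 f |(-t)| = 4 * h1 f |t|; rw [abs_neg], ?_, ?_⟩
  · intro t ht t' ht' htt
    have ht0 : 0 < t := ht
    have ht0' : 0 < t' := ht'
    show 4 * h1 f |t'| ≤ 4 * h1 f |t|
    rw [abs_of_pos ht0, abs_of_pos ht0']
    have := anti_h1 ha ht ht' htt
    gcongr
  · ext s hs
    unfold br
    rw [Measure.map_apply meas_ph hs, withDensity_apply _ hs, ← lintegral_indicator hs]
    have hG : Measurable (s.indicator (fun _ => (1 : ℝ≥0∞))) := measurable_const.indicator hs
    have e1 : ∫⁻ t, s.indicator (fun t => 4 * h1 f |t|) t =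
        ∫⁻ t, s.indicator (fun _ => (1 : ℝ≥0∞)) t * (4 * h1 f |t|) := by
      refine lintegral_congr fun t => ?_
      by_cases h : t ∈ s
      · rw [Set.indicator_of_mem h, Set.indicator_of_mem h, one_mul]
      · rw [Set.indicator_of_notMem h, Set.indicator_of_notMem h, zero_mul]
    rw [e1, ← plane hf he hG]
    have hGp : Measurable fun p : ℝ × ℝ => s.indicator (fun _ => (1 : ℝ≥0∞)) (ph p.1 p.2) :=
      hG.comp meas_ph
    rw [← lintegral_indicator_one (meas_ph hs)]
    have e2 : ∫⁻ p : ℝ × ℝ, ((fun p : ℝ × ℝ => ph p.1 p.2) ⁻¹' s).indicator 1 p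
        ∂((volume.withDensity f).prod (volume.withDensity f)) =
        ∫⁻ p : ℝ × ℝ, s.indicator (fun _ => (1 : ℝ≥0∞)) (ph p.1 p.2)
          ∂((volume.withDensity f).prod (volume.withDensity f)) := by
      refine lintegral_congr fun p => ?_
      by_cases h : ph p.1 p.2 ∈ s
      · rw [Set.indicator_of_mem h, Set.indicator_of_mem (show p ∈ _ from h)]
        rfl
      · rw [Set.indicator_of_notMem h, Set.indicator_of_notMem (show p ∉ _ from h)]
    have h3 : ∀ a : ℝ, Measurable fun b => s.indicator (fun _ => (1 : ℝ≥0∞)) (ph a b) := fun a =>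
      sr (F := fun a b => s.indicator (fun _ => (1 : ℝ≥0∞)) (ph a b)) hGp a
    have e3 : ∀ a : ℝ, ∫⁻ b, s.indicator (fun _ => (1 : ℝ≥0∞)) (ph a b) ∂(volume.withDensity f) =
        ∫⁻ b, f b * s.indicator (fun _ => (1 : ℝ≥0∞)) (ph a b) := fun a =>
      lintegral_withDensity_eq_lintegral_mul volume hf (h3 a)
    have e4 : ∫⁻ a, (∫⁻ b, s.indicator (fun _ => (1 : ℝ≥0∞)) (ph a b) ∂(volume.withDensity f))
        ∂(volume.withDensity f) =
        ∫⁻ a, f a * ∫⁻ b, s.indicator (fun _ => (1 : ℝ≥0∞)) (ph a b) ∂(volume.withDensity f) :=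
      lintegral_withDensity_eq_lintegral_mul volume hf hGp.lintegral_prod_right'
    rw [e2, lintegral_prod _ hGp.aemeasurable]
    refine e4.trans (lintegral_congr fun a => ?_)
    have h5 : Measurable fun b => f b * s.indicator (fun _ => (1 : ℝ≥0∞)) (ph a b) := hf.mul (h3 a)
    rw [e3 a, ← lintegral_const_mul _ h5]
    exact lintegral_congr fun b => r5 _ _ _

end

end Pool.Agent.N222.EA
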