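import Pool.Agent.N912.EL.Stm
import Pool.Agent.W179.EG.BTX

/-! # EL/10: the bilinear estimate with coefficients (port of `W179.EG.btx`; helper222) -/

set_option autoImplicit false
set_option linter.unusedVariables false

namespace Pool.Agent.N222.EL10

open Finset Filter
open Pool.Agent.W78.GA
open Pool.Agent.W78.EC (psi)
open Pool.Agent.W78.EG
open Pool.Agent.N912.EL
open Pool.Agent.W179.EG (hDf good_card cone_total psi_nonneg psi_ge th_nonneg Gv_nonneg dt_anti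
  cw_sub_cone cone_mem cw_mem absAA)

variable {t c : ℤ} {f : ℕ} {χ : DirichletCharacter ℂ f}

theorem ta_abs {a : ℕ → ℝ} (ha : ∀ m, |a m| ≤ 1) (Q : ℕ) (m : ℤ) : |ta χ a Q m| ≤ th χ Q m := by
  unfold ta
  rw [abs_mul, abs_of_nonneg (th_nonneg χ Q m)]
  exact mul_le_of_le_one_left (th_nonneg χ Q m) (ha _)

theorem Gva_symm (χ : DirichletCharacter ℂ f) (a : ℕ → ℝ) (Q : ℕ) (X : ℝ) (w₁ w₂ : Qd t c) :
    Gva χ a Q X w₁ w₂ = Gva χ a Q X w₂ w₁ := by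
  unfold Gva
  exact sum_congr rfl fun v _ => by ring

theorem Gva_abs {a : ℕ → ℝ} (ha : ∀ m, |a m| ≤ 1) (Q : ℕ) (X : ℝ) (w₁ w₂ : Qd t c) :
    |Gva χ a Q X w₁ w₂| ≤ Gv χ Q X w₁ w₂ := by
  unfold Gva Gv
  refine (abs_sum_le_sum_abs _ _).trans (sum_le_sum fun v _ => ?_)
  rw [abs_mul, abs_mul, abs_of_nonneg (psi_nonneg _)]
  have h1 := ta_abs (χ := χ) ha Q (dt v w₁)
  have h2 := ta_abs (χ := χ) ha Q (dt v w₂)
  have h3 : psi (nm v / X) * |ta χ a Q (dt v w₁)| ≤ psi (nm v / X) * th χ Q (dt v w₁) :=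
    mul_le_mul_of_nonneg_left h1 (psi_nonneg _)
  exact mul_le_mul h3 h2 (abs_nonneg _) (mul_nonneg (psi_nonneg _) (th_nonneg _ _ _))

theorem sq_expandA (χ : DirichletCharacter ℂ f) (a : ℕ → ℝ) (A : Qd t c → ℝ) (Q : ℕ) (X : ℝ)
    (W : Finset (Qd t c)) :
    ∑ v ∈ ball t c (4 * X), psi (nm v / X) * (∑ w ∈ W, A w * ta χ a Q (dt v w)) ^ 2 =
      ∑ w₁ ∈ W, ∑ w₂ ∈ W, A w₁ * A w₂ * Gva χ a Q X w₁ w₂ := by
  unfold Gva
  simp only [mul_sum]
  rw [sum_congr rfl (fun w₁ _ => sum_comm), sum_comm]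
  refine sum_congr rfl fun v _ => ?_
  rw [sq, sum_mul_sum, mul_sum]
  refine sum_congr rfl fun w₁ _ => ?_
  rw [mul_sum]
  exact sum_congr rfl fun w₂ _ => by ring

theorem rho_nonneg (δ x : ℝ) : 0 ≤ rho δ x := le_max_left _ _

theorem rho_le_one (δ x : ℝ) : rho δ x ≤ 1 := max_le zero_le_one (min_le_left _ _)

theorem rho_zero {δ x : ℝ} (hδ : 0 < δ) (hx : x ≤ δ) : rho δ x = 0 := by
  unfold rho
  apply max_eq_left
  refine (min_le_right _ _).trans ?_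
  have : x / δ ≤ 1 := (div_le_one hδ).2 hx
  linarith

theorem rho_one {δ x : ℝ} (hδ : 0 < δ) (hx : 2 * δ ≤ x) : rho δ x = 1 := by
  unfold rho
  have : 2 ≤ x / δ := (le_div_iff₀ hδ).2 hx
  rw [min_eq_left (by linarith), max_eq_right zero_le_one]

/-- the part near the diagonal -/
theorem rest_bound {δ x : ℝ} (hδ : 0 < δ) :
    |1 - rho δ x - rho δ (-x)| ≤ if |x| < 2 * δ then 1 else 0 := by
  have h1 := rho_nonneg δ x
  have h2 := rho_le_one δ x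
  have h3 := rho_nonneg δ (-x)
  have h4 := rho_le_one δ (-x)
  split_ifs with h
  · rcases le_total x 0 with hx | hx
    · rw [rho_zero hδ (hx.trans hδ.le), abs_le]
      constructor <;> linarith
    · rw [rho_zero hδ (x := -x) (by linarith), abs_le]
      constructor <;> linarith
  · have h5 : 2 * δ ≤ |x| := not_lt.1 h
    rcases le_total x 0 with hx | hx
    · rw [abs_of_nonpos hx] at h5
      rw [rho_zero hδ (hx.trans hδ.le), rho_one hδ h5]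
      simp
    · rw [abs_of_nonneg hx] at h5
      rw [rho_zero hδ (x := -x) (by linarith), rho_one hδ h5]
      simp

/-- splitting the double sum -/
theorem splitR (W : Finset (Qd t c)) (δ : ℝ) (Q : ℕ) (F : Qd t c → Qd t c → ℝ)
    (hF : ∀ a b, F a b = F b a) :
    ∑ w₁ ∈ W, ∑ w₂ ∈ W, F w₁ w₂ =
      2 * ∑ w₁ ∈ W, ∑ w₂ ∈ W, rho δ ((dt w₁ w₂ : ℝ) / Q) * F w₁ w₂ +
      ∑ w₁ ∈ W, ∑ w₂ ∈ W,
        (1 - rho δ ((dt w₁ w₂ : ℝ) / Q) - rho δ (-((dt w₁ w₂ : ℝ) / Q))) * F w₁ w₂ := by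
  have h1 : ∑ w₁ ∈ W, ∑ w₂ ∈ W, rho δ ((dt w₁ w₂ : ℝ) / Q) * F w₁ w₂ =
      ∑ w₁ ∈ W, ∑ w₂ ∈ W, rho δ (-((dt w₁ w₂ : ℝ) / Q)) * F w₁ w₂ := by
    rw [sum_comm]
    refine sum_congr rfl fun a _ => sum_congr rfl fun b _ => ?_
    rw [dt_anti b a, hF b a]
    push_cast
    rw [neg_div]
  have h2 : ∑ w₁ ∈ W, ∑ w₂ ∈ W, F w₁ w₂ =
      ∑ w₁ ∈ W, ∑ w₂ ∈ W, rho δ ((dt w₁ w₂ : ℝ) / Q) * F w₁ w₂ +
      ∑ w₁ ∈ W, ∑ w₂ ∈ W, rho δ (-((dt w₁ w₂ : ℝ) / Q)) * F w₁ w₂ +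
      ∑ w₁ ∈ W, ∑ w₂ ∈ W,
        (1 - rho δ ((dt w₁ w₂ : ℝ) / Q) - rho δ (-((dt w₁ w₂ : ℝ) / Q))) * F w₁ w₂ := by
    simp only [← sum_add_distrib]
    exact sum_congr rfl fun a _ => sum_congr rfl fun b _ => by ring
  rw [h2, ← h1]
  ring

theorem bta {t c : ℤ} {f : ℕ} {χ : DirichletCharacter ℂ f} (hF : Fd t c f χ)
    (h1 : S_SML t c χ) (h2 : S_GGa t c χ) (h3 : S_BTMa t c χ) (h4 : S_LN t c)
    (h5 : S_DTB t c f) : S_BTa t c χ := by
  classical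
  have hD := hDf hF
  have hf3 : (3 : ℝ) ≤ f := by exact_mod_cast hF.three
  intro A hA hMrs K κ s s₁ s₂ ε hK hκ hs hs₁ hs₁₂ hs₂ hε
  set C₁ : ℝ := 64 * (1 / κ + 1) with hC₁
  have hC₁0 : 0 < C₁ := by positivity
  set η : ℝ := ε / C₁ with hη
  have hη0 : 0 < η := by positivity
  set δ₀ : ℝ := ε * η with hδ₀
  have hδ₀0 : 0 < δ₀ := by positivity
  obtain ⟨C, hC0, hC⟩ := h1 K κ s₁ s₂ hK hκ hs₁ hs₁₂ hs₂
  set δ : ℝ := min (1 / 2) (δ₀ / (2 * C)) with hδ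
  have hδ0 : 0 < δ := lt_min (by norm_num) (by positivity)
  have hδ12 : δ ≤ 1 / 2 := min_le_left _ _
  have hδC : C * (2 * δ) ≤ δ₀ := by
    have h6 : δ ≤ δ₀ / (2 * C) := min_le_right _ _
    have h7 := mul_le_mul_of_nonneg_left h6 (by positivity : 0 ≤ 2 * C)
    have h8 : 2 * C * (δ₀ / (2 * C)) = δ₀ := by field_simp
    linarith
  obtain ⟨Q₁, hQ₁⟩ := hC (2 * δ) (by positivity) (by linarith)
  obtain ⟨M, hM, Q₂, hQ₂⟩ := h2 K κ s₁ δ (δ₀ / 16) hK hκ hs₁ hδ0 (by linarith) (by positivity)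
  obtain ⟨Q₃, hQ₃⟩ := h3 A hA hMrs K κ s₁ s₂ hK hκ hs₁ hs₁₂ hs₂ M δ δ₀ hM hδ0 (by linarith) hδ₀0
  refine ⟨max Q₁ (max Q₂ (max Q₃ 1)), fun Q hQ => ?_⟩
  have hQa : Q₁ ≤ Q := (le_max_left _ _).trans hQ
  have hQb : Q₂ ≤ Q := ((le_max_left _ _).trans (le_max_right _ _)).trans hQ
  have hQc : Q₃ ≤ Q :=
    ((le_max_left _ _).trans ((le_max_right _ _).trans (le_max_right _ _))).trans hQ
  have hQ1 : 1 ≤ Q :=
    ((le_max_right _ _).trans ((le_max_right _ _).trans (le_max_right _ _))).trans hQ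
  obtain ⟨X₀, hX₀⟩ := hQ₃ Q hQc
  refine ⟨max X₀ (f * (K * Q : ℝ)), fun X hX a ha α hα _ => ?_⟩
  have hXa : X₀ ≤ X := (le_max_left _ _).trans hX
  have hXb : f * (K * Q : ℝ) ≤ X := (le_max_right _ _).trans hX
  have hQR : (1 : ℝ) ≤ Q := by exact_mod_cast hQ1
  have hKR : (1 : ℝ) ≤ K := by exact_mod_cast hK
  have hKQ1 : (1 : ℝ) ≤ K * Q := one_le_mul_of_one_le_of_one_le hKR hQR
  have hX1 : 1 ≤ X := by nlinarith
  have hX0 : 0 < X := by linarith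
  have hQ0 : (0 : ℝ) < Q := by linarith
  have hcone := cone_total hF h5 hK hκ hQ1 hXb
  rw [← hC₁] at hcone
  have hgood := good_card hF (κ := κ) hK hQ1 hXb
  -- the second moment
  set SS : Qd t c × Qd t c → Qd t c → ℝ :=
    fun e v => ∑ w ∈ cw X s₁ s₂ e.1 e.2, A w * ta χ a Q (dt v w) with hSS
  have hsec : ∑ e ∈ good t c K κ Q X, ∑ v ∈ cone X e.1 e.2, SS e v ^ 2 ≤
      δ₀ * X * (Q : ℝ) ^ 2 := by
    set F : Qd t c → Qd t c → ℝ := fun z w => A z * A w * Gva χ a Q X z w with hF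
    have hFs : ∀ z w, F z w = F w z := by
      intro z w
      rw [hF]
      simp only
      rw [Gva_symm]
      ring
    have e1 : ∀ e ∈ good t c K κ Q X, 9 * ∑ v ∈ cone X e.1 e.2, SS e v ^ 2 ≤
        ∑ w₁ ∈ cw X s₁ s₂ e.1 e.2, ∑ w₂ ∈ cw X s₁ s₂ e.1 e.2, F w₁ w₂ := by
      intro e _
      rw [hF, ← sq_expandA, mul_sum]
      have hsub : cone X e.1 e.2 ⊆ ball t c (4 * X) := by
        intro z hz
        obtain ⟨q1, q3⟩ := cone_mem hD hz
        rw [mem_ball hD]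
        exact ⟨(one_le_nm hD).2 (prim_ne_zero q1), by linarith⟩
      refine le_trans (sum_le_sum fun v hv => ?_) (sum_le_sum_of_subset_of_nonneg hsub
        fun v _ _ => mul_nonneg (psi_nonneg _) (sq_nonneg _))
      apply mul_le_mul_of_nonneg_right _ (sq_nonneg _)
      apply psi_ge
      rw [div_le_one hX0]
      exact (cone_mem hD hv).2
    set B : Qd t c × Qd t c → ℝ := fun e => ∑ w₁ ∈ cw X s₁ s₂ e.1 e.2,
      ∑ w₂ ∈ cw X s₁ s₂ e.1 e.2, rho δ ((dt w₁ w₂ : ℝ) / Q) * F w₁ w₂ with hB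
    set B0 : Qd t c × Qd t c → ℝ := fun e => ∑ w₁ ∈ cw X s₁ s₂ e.1 e.2,
      ∑ w₂ ∈ cw X s₁ s₂ e.1 e.2,
        A w₁ * A w₂ * (rho δ ((dt w₁ w₂ : ℝ) / Q) * G0a χ a M Q X w₁ w₂) with hB0
    set Sm : Qd t c × Qd t c → ℝ := fun e => ∑ w₁ ∈ cw X s₁ s₂ e.1 e.2,
      ∑ w₂ ∈ cw X s₁ s₂ e.1 e.2,
      (1 - rho δ ((dt w₁ w₂ : ℝ) / Q) - rho δ (-((dt w₁ w₂ : ℝ) / Q))) * F w₁ w₂ with hSm
    have e2 : ∀ e ∈ good t c K κ Q X, 9 * ∑ v ∈ cone X e.1 e.2, SS e v ^ 2 ≤ 2 * B e + Sm e := by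
      intro e he
      refine (e1 e he).trans (le_of_eq ?_)
      rw [splitR _ δ Q F hFs]
    have e3 : ∀ e ∈ good t c K κ Q X, B e ≤ B0 e + δ₀ / 16 * (Q : ℝ) ^ 3 := by
      intro e he
      have g1 := hQ₂ Q hQb a ha X hXb e he
      have g2 : B e - B0 e ≤ ∑ w₁ ∈ cw X s₁ 1 e.1 e.2, ∑ w₂ ∈ cw X s₁ 1 e.1 e.2,
          (if δ * Q ≤ (dt w₁ w₂ : ℝ) then |Gva χ a Q X w₁ w₂ - G0a χ a M Q X w₁ w₂| else 0) := by
        rw [hB, hB0]
        simp only [← sum_sub_distrib]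
        have hsub : cw X s₁ s₂ e.1 e.2 ⊆ cw X s₁ 1 e.1 e.2 := by
          intro z hz
          unfold cw at hz ⊢
          rw [mem_filter] at hz ⊢
          refine ⟨hz.1, hz.2.1, hz.2.2.trans ?_⟩
          exact mul_le_mul_of_nonneg_right hs₂ hX0.le
        have nn : ∀ z w : Qd t c, 0 ≤ (if δ * Q ≤ (dt z w : ℝ) then
            |Gva χ a Q X z w - G0a χ a M Q X z w| else 0) := by
          intro z w
          split_ifs
          · exact abs_nonneg _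
          · exact le_rfl
        refine le_trans (sum_le_sum fun z _ => ?_) (sum_le_sum_of_subset_of_nonneg hsub
          fun z _ _ => sum_nonneg fun w _ => nn z w)
        refine le_trans (sum_le_sum fun w _ => ?_) (sum_le_sum_of_subset_of_nonneg hsub
          fun w _ _ => nn z w)
        have hid : rho δ ((dt z w : ℝ) / Q) * F z w -
            A z * A w * (rho δ ((dt z w : ℝ) / Q) * G0a χ a M Q X z w) =
            rho δ ((dt z w : ℝ) / Q) *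
              (A z * A w * (Gva χ a Q X z w - G0a χ a M Q X z w)) := by
          rw [hF]; ring
        rw [hid]
        split_ifs with hdt
        · refine (le_abs_self _).trans ?_
          rw [abs_mul, abs_of_nonneg (rho_nonneg _ _), abs_mul]
          have i1 : |A z * A w| * |Gva χ a Q X z w - G0a χ a M Q X z w| ≤
              |Gva χ a Q X z w - G0a χ a M Q X z w| :=
            mul_le_of_le_one_left (abs_nonneg _) (absAA hA _ _)
          exact (mul_le_of_le_one_left (by positivity) (rho_le_one _ _)).trans i1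
        · rw [rho_zero hδ0, zero_mul]
          rw [div_le_iff₀ hQ0]
          linarith
      linarith
    have e4 : ∑ e ∈ good t c K κ Q X, B0 e ≤ δ₀ * X * (Q : ℝ) ^ 2 :=
      (le_abs_self _).trans (hX₀ X hXa a ha)
    have e5 : ∑ e ∈ good t c K κ Q X, Sm e ≤ δ₀ * X * (Q : ℝ) ^ 2 := by
      have g1 := hQ₁ Q hQa X hXb
      have g2 : ∑ e ∈ good t c K κ Q X, Sm e ≤ ∑ e ∈ good t c K κ Q X,
          ∑ w₁ ∈ cw X s₁ s₂ e.1 e.2, ∑ w₂ ∈ cw X s₁ s₂ e.1 e.2,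
            (if |(dt w₁ w₂ : ℝ)| < (2 * δ) * Q then Gv χ Q X w₁ w₂ else 0) := by
        refine sum_le_sum fun e _ => ?_
        rw [hSm]
        refine sum_le_sum fun z _ => sum_le_sum fun w _ => ?_
        refine (le_abs_self _).trans ?_
        rw [abs_mul]
        have i1 : |F z w| ≤ Gv χ Q X z w := by
          rw [hF]
          simp only
          rw [abs_mul]
          exact (mul_le_of_le_one_left (abs_nonneg _) (absAA hA _ _)).trans (Gva_abs ha Q X z w)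
        have i2 := rest_bound (δ := δ) (x := (dt z w : ℝ) / Q) hδ0
        have i3 : (|(dt z w : ℝ) / Q| < 2 * δ) ↔ (|(dt z w : ℝ)| < (2 * δ) * Q) := by
          rw [abs_div, abs_of_pos hQ0, div_lt_iff₀ hQ0]
        simp only [i3] at i2
        calc _ ≤ (if |(dt z w : ℝ)| < (2 * δ) * Q then (1 : ℝ) else 0) * Gv χ Q X z w := by
              apply mul_le_mul i2 i1 (abs_nonneg _)
              split_ifs <;> norm_num
          _ = _ := by split_ifs <;> simp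
      refine (g2.trans g1).trans ?_
      have : C * (2 * δ) * X * (Q : ℝ) ^ 2 = (C * (2 * δ)) * (X * (Q : ℝ) ^ 2) := by ring
      rw [this]
      calc _ ≤ δ₀ * (X * (Q : ℝ) ^ 2) := mul_le_mul_of_nonneg_right hδC (by positivity)
        _ = _ := by ring
    have e6 : 9 * ∑ e ∈ good t c K κ Q X, ∑ v ∈ cone X e.1 e.2, SS e v ^ 2 ≤
        2 * (∑ e ∈ good t c K κ Q X, B e) + ∑ e ∈ good t c K κ Q X, Sm e := by
      rw [mul_sum, mul_sum, ← sum_add_distrib]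
      exact sum_le_sum e2
    have e7 : ∑ e ∈ good t c K κ Q X, B e ≤ 2 * (δ₀ * X * (Q : ℝ) ^ 2) := by
      refine (sum_le_sum e3).trans ?_
      rw [sum_add_distrib, sum_const, nsmul_eq_mul]
      have g1 : ((good t c K κ Q X).card : ℝ) * (δ₀ / 16 * (Q : ℝ) ^ 3) ≤
          16 * (X / (K * Q)) * (δ₀ / 16 * (Q : ℝ) ^ 3) :=
        mul_le_mul_of_nonneg_right hgood (by positivity)
      have g2 : 16 * (X / (K * Q)) * (δ₀ / 16 * (Q : ℝ) ^ 3) = (δ₀ * X * (Q : ℝ) ^ 2) / K := by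
        field_simp
      have g3 : (δ₀ * X * (Q : ℝ) ^ 2) / K ≤ δ₀ * X * (Q : ℝ) ^ 2 :=
        div_le_self (by positivity) hKR
      linarith
    have hpos : 0 ≤ δ₀ * X * (Q : ℝ) ^ 2 := by positivity
    linarith
  -- the final step
  have hmain : |∑ e ∈ good t c K κ Q X, ∑ v ∈ cone X e.1 e.2, ∑ w ∈ cw X s₁ s₂ e.1 e.2,
      α v * A w * ta χ a Q (dt v w)| ≤
      ∑ e ∈ good t c K κ Q X, ∑ v ∈ cone X e.1 e.2, (η * Q / 2 + SS e v ^ 2 / (2 * (η * Q))) := by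
    refine (abs_sum_le_sum_abs _ _).trans (sum_le_sum fun e _ => ?_)
    refine (abs_sum_le_sum_abs _ _).trans (sum_le_sum fun v _ => ?_)
    have a1 : ∑ w ∈ cw X s₁ s₂ e.1 e.2, α v * A w * ta χ a Q (dt v w) = α v * SS e v := by
      rw [hSS]
      simp only
      rw [mul_sum]
      exact sum_congr rfl fun w _ => by ring
    rw [a1, abs_mul]
    have a2 : |α v| * |SS e v| ≤ |SS e v| := by
      calc |α v| * |SS e v| ≤ 1 * |SS e v| :=
            mul_le_mul_of_nonneg_right (hα v) (abs_nonneg _)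
        _ = _ := one_mul _
    refine a2.trans ?_
    have hp : 0 < η * Q := by positivity
    have a3 : SS e v ^ 2 = |SS e v| ^ 2 := (sq_abs _).symm
    rw [a3]
    have a4 : 0 ≤ (|SS e v| - η * Q) ^ 2 / (2 * (η * Q)) := by positivity
    have a5 : (|SS e v| - η * Q) ^ 2 / (2 * (η * Q)) =
        η * Q / 2 + |SS e v| ^ 2 / (2 * (η * Q)) - |SS e v| := by
      field_simp
      ring
    linarith
  refine hmain.trans ?_
  have b1 : ∑ e ∈ good t c K κ Q X, ∑ v ∈ cone X e.1 e.2, (η * Q / 2 + SS e v ^ 2 / (2 * (η * Q))) =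
      (η * Q / 2) * ∑ e ∈ good t c K κ Q X, ((cone X e.1 e.2).card : ℝ) +
      1 / (2 * (η * Q)) * ∑ e ∈ good t c K κ Q X, ∑ v ∈ cone X e.1 e.2, SS e v ^ 2 := by
    rw [mul_sum, mul_sum, ← sum_add_distrib]
    refine sum_congr rfl fun e _ => ?_
    rw [sum_add_distrib, sum_const, nsmul_eq_mul, mul_sum]
    congr 1
    · ring
    · exact sum_congr rfl fun v _ => by ring
  rw [b1]
  have b2 : (η * Q / 2) * ∑ e ∈ good t c K κ Q X, ((cone X e.1 e.2).card : ℝ) ≤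
      (η * Q / 2) * (C₁ * X) := mul_le_mul_of_nonneg_left hcone (by positivity)
  have b3 : 1 / (2 * (η * Q)) * ∑ e ∈ good t c K κ Q X, ∑ v ∈ cone X e.1 e.2, SS e v ^ 2 ≤
      1 / (2 * (η * Q)) * (δ₀ * X * (Q : ℝ) ^ 2) := mul_le_mul_of_nonneg_left hsec (by positivity)
  have b4 : (η * Q / 2) * (C₁ * X) = ε * X * Q / 2 := by
    rw [hη]; field_simp
  have b5 : 1 / (2 * (η * Q)) * (δ₀ * X * (Q : ℝ) ^ 2) = ε * X * Q / 2 := by
    rw [hδ₀]; field_simp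
  linarith

end Pool.Agent.N222.EL10

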