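import Pool.Agent.N661.QB.Stm
import Pool.Agent.N645.BHISOH

/-!
# Project QB (helper661), task EQ (helper222): equicontinuity of the two point functions
-/

set_option autoImplicit false
open MeasureTheory Filter Topology Complex
open scoped ContDiff

namespace Pool.Agent.N222.QBEQ

open Pool.Agent.W745.RW (dx dy TF)
open Pool.Agent.TH294.RS (dd db DP DM)
open Pool.Agent.Y265.RW (int_mul)
open Pool.Agent.Y265.HY (M2C)
open Pool.Agent.N661.BH (HP mv)
open Pool.Agent.N661.QB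
open Pool.Agent.N814.BHASM (wl)
open Pool.Agent.N645.BH (mv_cont mv_zero mv_im pair_bd fd_mv Cf cfe Cf.M0 Cf.det Cf.bd Cf.co)

noncomputable section

lemma der2 {U K' B : Set ℂ} (hU : IsOpen U) (hUK : U ⊆ K') {φ : ℂ → ℝ} (hφ : TF U φ)
    (hK' : IsCompact K') (hB : IsOpen B) (hK'B : K' ⊆ B) {h : ℝ} {a b : ℂ}
    (hs : ∀ z ∈ U, ∀ t : ℝ, |t| ≤ 2 → mv h (a + t * b) z ∈ K')
    {g f : ℂ → ℂ} (hg : ContinuousOn g U) (hf : ContDiffOn ℝ ∞ f B) {t : ℝ}
    (ht : t ∈ Set.Icc (0:ℝ) 1) :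
    HasDerivAt (fun t : ℝ => ∫ z, (φ z : ℂ) * (g z * f (mv h (a + t * b) z)))
      (∫ z, (φ z : ℂ) * (g z * fderiv ℝ f (mv h (a + t * b) z) (((h * z.im : ℝ) : ℂ) * b))) t := by
  have hball : ∀ x ∈ Metric.ball t 1, |x| ≤ 2 := by
    intro x hx
    rw [Metric.mem_ball, Real.dist_eq, abs_lt] at hx
    have := ht.1
    have := ht.2
    rw [abs_le]
    constructor <;> linarith [hx.1, hx.2]
  have ht2 : |t| ≤ 2 := hball t (Metric.mem_ball_self one_pos)
  have cf : ∀ x : ℝ, |x| ≤ 2 → ContinuousOn (fun z => g z * f (mv h (a + x * b) z)) U :=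
    fun x hx => hg.mul (hf.continuousOn.comp (mv_cont _ _).continuousOn
      fun z hz => hK'B (hs z hz x hx))
  have cfd : ContinuousOn (fun z => fderiv ℝ f z) B :=
    hf.continuousOn_fderiv_of_isOpen hB (by simp)
  obtain ⟨C1, hC1⟩ := hK'.exists_bound_of_continuousOn (cfd.mono hK'B)
  obtain ⟨R, hR⟩ := hK'.isBounded.exists_norm_le
  have cF' : ContinuousOn (fun z => g z *
      fderiv ℝ f (mv h (a + t * b) z) (((h * z.im : ℝ) : ℂ) * b)) U := by
    refine hg.mul (ContinuousOn.clm_apply (cfd.comp (mv_cont _ _).continuousOn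
      fun z hz => hK'B (hs z hz t ht2)) ?_)
    exact Continuous.continuousOn (by fun_prop)
  refine (hasDerivAt_integral_of_dominated_loc_of_deriv_le (μ := volume) (𝕜 := ℝ)
    (s := Metric.ball t 1)
    (F := fun (x : ℝ) z => (φ z : ℂ) * (g z * f (mv h (a + x * b) z)))
    (F' := fun (x : ℝ) z => (φ z : ℂ) *
      (g z * fderiv ℝ f (mv h (a + x * b) z) (((h * z.im : ℝ) : ℂ) * b)))
    (x₀ := t) (bound := fun z => ‖(φ z : ℂ) * g z‖ * (C1 * (|h| * R * ‖b‖)))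
    (Metric.ball_mem_nhds t one_pos)
    (Filter.eventually_of_mem (Metric.ball_mem_nhds t one_pos)
      fun x hx => (int_mul hU hφ (cf x (hball x hx))).1)
    (int_mul hU hφ (cf t ht2))
    (int_mul hU hφ cF').1
    (Eventually.of_forall fun z x hx => ?_)
    ((int_mul hU hφ hg).norm.mul_const _)
    (Eventually.of_forall fun z x hx => ?_)).2
  · by_cases hz : z ∈ U
    · have h1 := hs z hz x (hball x hx)
      have h2 := hC1 _ h1
      have h3 := hR z (hUK hz)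
      have h4 : ‖fderiv ℝ f (mv h (a + x * b) z) (((h * z.im : ℝ) : ℂ) * b)‖ ≤
          C1 * (|h| * R * ‖b‖) := by
        refine (ContinuousLinearMap.le_opNorm _ _).trans ?_
        refine mul_le_mul h2 ?_ (norm_nonneg _) ((norm_nonneg _).trans h2)
        rw [norm_mul, Complex.norm_real, Real.norm_eq_abs, abs_mul]
        refine mul_le_mul_of_nonneg_right ?_ (norm_nonneg _)
        exact mul_le_mul_of_nonneg_left ((Complex.abs_im_le_norm z).trans h3) (abs_nonneg _)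
      rw [← mul_assoc, norm_mul]
      exact mul_le_mul_of_nonneg_left h4 (norm_nonneg _)
    · have : φ z = 0 := Pool.Agent.Y265.RW.TF.zero hφ hz
      rw [this]
      simp
  · by_cases hz : z ∈ U
    · have h1 := hK'B (hs z hz x (hball x hx))
      have h2 : HasFDerivAt f (fderiv ℝ f (mv h (a + x * b) z)) (mv h (a + x * b) z) :=
        ((hf.contDiffAt (hB.mem_nhds h1)).differentiableAt (by simp)).hasFDerivAt
      have h3 : HasDerivAt (fun x : ℝ => mv h (a + x * b) z) (((h * z.im : ℝ) : ℂ) * b) x := by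
        unfold mv
        have e1 : HasDerivAt (fun x : ℝ => (x : ℂ)) 1 x := Complex.ofRealCLM.hasDerivAt
        have e2 := ((e1.mul_const b).const_add a).const_mul ((h * z.im : ℝ) : ℂ)
        rw [one_mul] at e2
        exact e2.const_add z
      exact ((h2.comp_hasDerivAt x h3).const_mul (g z)).const_mul _
    · have : φ z = 0 := Pool.Agent.Y265.RW.TF.zero hφ hz
      rw [this]
      simpa using hasDerivAt_const x (0 : ℂ)

variable {B : Set ℂ} {h : ℕ → ℝ} {w : ℤ → ℕ → ℂ → ℂ}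

theorem core (H : SY0 B h w) {φ : ℂ → ℝ} (hφ : TF B φ) (R : ℝ) :
    ∃ C : ℝ, ∀ᶠ n in atTop, ∀ v v' : ℂ, ‖v‖ ≤ R → ‖v'‖ ≤ R →
      ‖(∫ z, (φ z : ℂ) * (w 0 n z * w 0 n (mv (h n) v z))) -
        ∫ z, (φ z : ℂ) * (w 0 n z * w 0 n (mv (h n) v' z))‖ ≤ C * ‖v - v'‖ := by
  obtain ⟨U, K', δ, M, c⟩ := cfe H.op hφ
  have hφU : TF U φ := ⟨hφ.1, hφ.2.1, c.sU⟩
  have hM0 := c.M0
  obtain ⟨e, he, he'⟩ := H.up 0
  obtain ⟨e2, he2, he2'⟩ := H.dn 0
  obtain ⟨C0, hC0⟩ := (H.bd 0).lb.bd K' c.hK c.KB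
  obtain ⟨C1, hC1⟩ := (H.bd (0 + 1)).lb.bd K' c.hK c.KB
  obtain ⟨Cm, hCm⟩ := (H.bd (0 - 1)).lb.bd K' c.hK c.KB
  obtain ⟨C3, hC3⟩ := he.lb.bd K' c.hK c.KB
  obtain ⟨C4, hC4⟩ := he2.lb.bd K' c.hK c.KB
  set AG := 2 * M * C0 with hAG
  set Q := (AG + 2 * M * C1) + (AG + 2 * M * C3) + (AG + 2 * M * Cm) + (AG + 2 * M * C4) with hQ
  have hsm : ∀ᶠ n in atTop, h n * (5 * |R|) < δ := by
    have := H.hlim.mul_const (5 * |R|)
    rw [zero_mul] at this
    exact this.eventually (gt_mem_nhds c.dp)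
  have hh1 : ∀ᶠ n in atTop, h n < 1 := H.hlim.eventually (gt_mem_nhds one_pos)
  refine ⟨Q, ?_⟩
  filter_upwards [hsm, hh1, hC0, hC1, hCm, hC3, hC4] with n h5 h1n g0 g1 gm g3 g4 v v' hv hv'
  have hpos := H.hpos n
  set b := v - v' with hb
  have hbn : ‖b‖ ≤ 2 * |R| := by
    have := norm_sub_le v v'
    have := le_abs_self R
    linarith
  have hR0 : 0 ≤ |R| := abs_nonneg R
  have hsmall : ∀ t : ℝ, |t| ≤ 2 → |h n| * ‖v' + t * b‖ ≤ δ := by
    intro t ht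
    rw [abs_of_pos hpos]
    have e1 : ‖v' + t * b‖ ≤ 5 * |R| := by
      refine (norm_add_le _ _).trans ?_
      rw [norm_mul, Complex.norm_real, Real.norm_eq_abs]
      have h7 : |t| * ‖b‖ ≤ 2 * (2 * |R|) := mul_le_mul ht hbn (norm_nonneg _) (by norm_num)
      have := le_abs_self R
      linarith
    exact (mul_le_mul_of_nonneg_left e1 hpos.le).trans h5.le
  have hG : ContinuousOn (w 0 n) U := ((H.bd 0).co n).mono (c.UK.trans c.KB)
  have hGb : ∫ z, |φ z| * ‖w 0 n z‖ ^ 2 ≤ AG := by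
    have h6 := c.bd (s := 0) (v := 0) (by rw [norm_zero, mul_zero]; exact c.dp.le)
      ((H.bd 0).co n)
    simp only [mv_zero] at h6
    refine h6.trans ?_
    exact mul_le_mul_of_nonneg_left g0 (by linarith)
  -- the pairings
  set P : (ℂ → ℂ) → ℝ → ℂ := fun f t =>
    ∫ z, (φ z : ℂ) * (w 0 n z * f (mv (h n) (v' + t * b) z)) with hP
  have hPb : ∀ (f : ℂ → ℂ) (Cf : ℝ), ContinuousOn f B → ∫ z in K', ‖f z‖ ^ 2 ≤ Cf →
      ∀ t : ℝ, |t| ≤ 2 → ‖P f t‖ ≤ AG + 2 * M * Cf := by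
    intro f Cf hf hCf t ht2
    have h5 := c.co (hsmall t ht2) hf
    refine (pair_bd c.hU hφU hG h5).trans (add_le_add hGb ?_)
    exact (c.bd (hsmall t ht2) hf).trans (mul_le_mul_of_nonneg_left hCf (by linarith))
  have hd : ∀ t ∈ Set.Icc (0 : ℝ) 1, HasDerivAt (P (w 0 n))
      (∫ z, (φ z : ℂ) * (w 0 n z * fderiv ℝ (w 0 n) (mv (h n) (v' + t * b) z)
        (((h n * z.im : ℝ) : ℂ) * b))) t := fun t ht =>
    der2 c.hU c.UK hφU c.hK H.op c.KB (fun z hz t ht => c.mem z hz _ _ (hsmall t ht)) hG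
      ((H.bd 0).sm n) ht
  have hbound : ∀ t ∈ Set.Icc (0 : ℝ) 1, ‖∫ z, (φ z : ℂ) * (w 0 n z *
      fderiv ℝ (w 0 n) (mv (h n) (v' + t * b) z) (((h n * z.im : ℝ) : ℂ) * b))‖ ≤ Q * ‖b‖ := by
    intro t ht
    have ht2 : |t| ≤ 2 := by rw [abs_of_nonneg ht.1]; linarith [ht.2]
    have hs := hsmall t ht2
    have hsB : ∀ z ∈ U, mv (h n) (v' + t * b) z ∈ B := fun z hz => c.KB (c.mem z hz _ _ hs)
    set θ : ℝ := h n * (v' + t * b).im with hθ
    have hdet : 1 / 2 ≤ 1 + θ := c.det hs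
    have hdet0 : 1 + θ ≠ 0 := by linarith
    have i1 : Integrable fun z => (φ z : ℂ) * (w 0 n z * w (0 + 1) n (mv (h n) (v' + t * b) z)) :=
      int_mul c.hU hφU (hG.mul (c.co hs ((H.bd (0 + 1)).co n)))
    have i2 : Integrable fun z => (φ z : ℂ) * (w 0 n z * w (0 - 1) n (mv (h n) (v' + t * b) z)) :=
      int_mul c.hU hφU (hG.mul (c.co hs ((H.bd (0 - 1)).co n)))
    have i3 : Integrable fun z => (φ z : ℂ) * (w 0 n z * e n (mv (h n) (v' + t * b) z)) :=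
      int_mul c.hU hφU (hG.mul (c.co hs (he.co n)))
    have i4 : Integrable fun z => (φ z : ℂ) * (w 0 n z * e2 n (mv (h n) (v' + t * b) z)) :=
      int_mul c.hU hφU (hG.mul (c.co hs (he2.co n)))
    set κ : ℝ := (1 + θ)⁻¹ with hκ
    have e5 : (∫ z, (φ z : ℂ) * (w 0 n z *
      fderiv ℝ (w 0 n) (mv (h n) (v' + t * b) z) (((h n * z.im : ℝ) : ℂ) * b))) =
        (κ : ℂ) * (b / 2) * P (w (0 + 1) n) t +
        (κ : ℂ) * (b / 2) * (h n : ℂ) * P (e n) t +
        (-((κ : ℂ) * ((starRingEnd ℂ) b / 2))) * P (w (0 - 1) n) t +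
        (κ : ℂ) * ((starRingEnd ℂ) b / 2) * (h n : ℂ) * P (e2 n) t := by
      simp only [hP]
      have j1 : Integrable fun z =>
          (κ : ℂ) * (b / 2) * ((φ z : ℂ) * (w 0 n z * w (0 + 1) n (mv (h n) (v' + t * b) z))) +
          (κ : ℂ) * (b / 2) * (h n : ℂ) *
            ((φ z : ℂ) * (w 0 n z * e n (mv (h n) (v' + t * b) z))) :=
        (i1.const_mul _).add (i3.const_mul _)
      have j2 : Integrable fun z =>
          (κ : ℂ) * (b / 2) * ((φ z : ℂ) * (w 0 n z * w (0 + 1) n (mv (h n) (v' + t * b) z))) +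
          (κ : ℂ) * (b / 2) * (h n : ℂ) *
            ((φ z : ℂ) * (w 0 n z * e n (mv (h n) (v' + t * b) z))) +
          (-((κ : ℂ) * ((starRingEnd ℂ) b / 2))) *
            ((φ z : ℂ) * (w 0 n z * w (0 - 1) n (mv (h n) (v' + t * b) z))) :=
        j1.add (i2.const_mul _)
      rw [← integral_const_mul, ← integral_const_mul, ← integral_const_mul,
        ← integral_const_mul, ← integral_add (i1.const_mul _) (i3.const_mul _),
        ← integral_add j1 (i2.const_mul _), ← integral_add j2 (i4.const_mul _)]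
      refine integral_congr_ae (Eventually.of_forall fun z => ?_)
      simp only
      by_cases hz : z ∈ U
      · have hzB := hsB z hz
        rw [fd_mv (mv_im (h n) (v' + t * b) z) hdet0, he' n _ hzB, he2' n _ hzB]
        ring
      · rw [Pool.Agent.Y265.RW.TF.zero hφU hz]; simp
    have k1 := hPb _ C1 ((H.bd (0 + 1)).co n) g1 t ht2
    have k2 := hPb _ Cm ((H.bd (0 - 1)).co n) gm t ht2
    have k3 := hPb _ C3 (he.co n) g3 t ht2
    have k4 := hPb _ C4 (he2.co n) g4 t ht2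
    rw [e5]
    set p1 := P (w (0 + 1) n) t with hp1
    set p2 := P (w (0 - 1) n) t with hp2
    set p3 := P (e n) t with hp3
    set p4 := P (e2 n) t with hp4
    have hκ1 : |κ| ≤ 2 := by
      rw [hκ, abs_of_nonneg (inv_nonneg.2 (by linarith)), inv_le_comm₀ (by linarith)
        (by norm_num)]
      linarith
    have hκn : ‖(κ : ℂ)‖ ≤ 2 := by rwa [Complex.norm_real, Real.norm_eq_abs]
    have hhn : ‖(h n : ℂ)‖ ≤ 1 := by
      rw [Complex.norm_real, Real.norm_eq_abs, abs_of_pos hpos]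
      exact h1n.le
    have hb2 : ‖b / 2‖ = ‖b‖ / 2 := by rw [norm_div]; norm_num
    have hb3 : ‖(starRingEnd ℂ) b / 2‖ = ‖b‖ / 2 := by
      rw [norm_div, RCLike.norm_conj]; norm_num
    have m1 : ‖(κ : ℂ) * (b / 2)‖ ≤ ‖b‖ := by
      rw [norm_mul, hb2]
      calc ‖(κ : ℂ)‖ * (‖b‖ / 2) ≤ 2 * (‖b‖ / 2) :=
            mul_le_mul_of_nonneg_right hκn (by positivity)
        _ = ‖b‖ := by ring
    have m2 : ‖(κ : ℂ) * ((starRingEnd ℂ) b / 2)‖ ≤ ‖b‖ := by
      rw [norm_mul, hb3]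
      calc ‖(κ : ℂ)‖ * (‖b‖ / 2) ≤ 2 * (‖b‖ / 2) :=
            mul_le_mul_of_nonneg_right hκn (by positivity)
        _ = ‖b‖ := by ring
    have n1 : ‖(κ : ℂ) * (b / 2) * p1‖ ≤ ‖b‖ * (AG + 2 * M * C1) := by
      rw [norm_mul]
      exact mul_le_mul m1 k1 (norm_nonneg _) (norm_nonneg _)
    have n2 : ‖(κ : ℂ) * (b / 2) * (h n : ℂ) * p3‖ ≤ ‖b‖ * (AG + 2 * M * C3) := by
      rw [norm_mul, norm_mul]
      calc ‖(κ : ℂ) * (b / 2)‖ * ‖(h n : ℂ)‖ * ‖p3‖ ≤ ‖b‖ * 1 * (AG + 2 * M * C3) :=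
            mul_le_mul (mul_le_mul m1 hhn (norm_nonneg _) (norm_nonneg _)) k3 (norm_nonneg _)
              (by positivity)
        _ = _ := by ring
    have n3 : ‖(-((κ : ℂ) * ((starRingEnd ℂ) b / 2))) * p2‖ ≤ ‖b‖ * (AG + 2 * M * Cm) := by
      rw [norm_mul, norm_neg]
      exact mul_le_mul m2 k2 (norm_nonneg _) (norm_nonneg _)
    have n4 : ‖(κ : ℂ) * ((starRingEnd ℂ) b / 2) * (h n : ℂ) * p4‖ ≤
        ‖b‖ * (AG + 2 * M * C4) := by
      rw [norm_mul, norm_mul]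
      calc ‖(κ : ℂ) * ((starRingEnd ℂ) b / 2)‖ * ‖(h n : ℂ)‖ * ‖p4‖ ≤
            ‖b‖ * 1 * (AG + 2 * M * C4) :=
            mul_le_mul (mul_le_mul m2 hhn (norm_nonneg _) (norm_nonneg _)) k4 (norm_nonneg _)
              (by positivity)
        _ = _ := by ring
    have t1 := norm_add_le ((κ : ℂ) * (b / 2) * p1 + (κ : ℂ) * (b / 2) * (h n : ℂ) * p3 +
      (-((κ : ℂ) * ((starRingEnd ℂ) b / 2))) * p2)
      ((κ : ℂ) * ((starRingEnd ℂ) b / 2) * (h n : ℂ) * p4)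
    have t2 := norm_add_le ((κ : ℂ) * (b / 2) * p1 + (κ : ℂ) * (b / 2) * (h n : ℂ) * p3)
      ((-((κ : ℂ) * ((starRingEnd ℂ) b / 2))) * p2)
    have t3 := norm_add_le ((κ : ℂ) * (b / 2) * p1) ((κ : ℂ) * (b / 2) * (h n : ℂ) * p3)
    rw [hQ]
    have e9 : ((AG + 2 * M * C1) + (AG + 2 * M * C3) + (AG + 2 * M * Cm) + (AG + 2 * M * C4)) *
        ‖b‖ = ‖b‖ * (AG + 2 * M * C1) + ‖b‖ * (AG + 2 * M * C3) + ‖b‖ * (AG + 2 * M * Cm) +
        ‖b‖ * (AG + 2 * M * C4) := by ring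
    rw [e9]
    linarith
  have main := norm_image_sub_le_of_norm_deriv_le_segment_01' (f := P (w 0 n))
    (fun t ht => (hd t ht).hasDerivWithinAt) (fun t ht => hbound t (Set.Ico_subset_Icc_self ht))
  have e10 : v' + ((1 : ℝ) : ℂ) * b = v := by
    rw [hb, ofReal_one]
    ring
  have e11 : v' + ((0 : ℝ) : ℂ) * b = v' := by
    rw [ofReal_zero]
    ring
  simp only [hP] at main
  rw [e10, e11] at main
  exact main

theorem EQ : S_SYS → S_EQ := by
  intro hS Ω lam u H φ hφ R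
  have hsys := hS Ω lam u H
  obtain ⟨C, hC⟩ := core hsys hφ R
  refine ⟨C, ?_⟩
  filter_upwards [hC] with n hn v v' hv hv'
  have h1 := hn v v' hv hv'
  have e : ∀ v : ℂ, (∫ z, (φ z : ℂ) * (wl lam u 0 n z * wl lam u 0 n (mv (1 / √(lam n)) v z))) =
      ((T2 φ (lam n) (u n) v : ℝ) : ℂ) := by
    intro v
    unfold T2
    rw [← integral_complex_ofReal]
    refine integral_congr_ae (Eventually.of_forall fun z => ?_)
    show (φ z : ℂ) * ((u n z : ℂ) * (u n (mv (1 / √(lam n)) v z) : ℂ)) = _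
    push_cast
    ring
  rw [e, e, ← ofReal_sub, Complex.norm_real, Real.norm_eq_abs] at h1
  exact h1

end

end Pool.Agent.N222.QBEQ
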