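import Pool.Agent.N657.QL.Stm

/-!
# Project QL, task UP: the sharp upper bound of the depletion (helper222 for helper657)
-/

set_option autoImplicit false

namespace Pool.Agent.N222.QLUP

open MeasureTheory Filter Topology
open Pool.Agent.N657.QR Pool.Agent.N657.QL

lemma integ (hT : S_TPB) {V : Type} [Fintype V] [DecidableEq V] (μ : Measure (V → ℝ))
    [IsProbabilityMeasure μ] (R : (V → ℝ) → ℝ) (hR : R ∈ TP V) : Integrable R μ := by
  obtain ⟨C, hC⟩ := hT.bdd R hR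
  exact Integrable.of_bound (hT.cont R hR).aestronglyMeasurable C
    (ae_of_all _ fun θ => by rw [Real.norm_eq_abs]; exact hC θ)

lemma cMmem (hT : S_TPB) {V : Type} [Fintype V] [DecidableEq V] (M : ℕ) :
    (fun θ : V → ℝ => cM M (r2 θ)) ∈ TP V := by
  have h : (fun θ : V → ℝ => cM M (r2 θ)) = ∑ j ∈ Finset.range M,
      (((2 * M).choose (2 * j + 1) : ℝ) * ((2 * j + 2).choose (j + 1) : ℝ) / 4 ^ (j + 1)) •
        (r2 : (V → ℝ) → ℝ) ^ j := by
    ext θ
    simp [cM]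
  rw [h]
  exact Subalgebra.sum_mem _ fun j _ => Subalgebra.smul_mem _
    (Subalgebra.pow_mem _ (hT.mem (fun _ => 0)).2.2.2.2.1 j) _

/-- One mode of the Laplace operator. -/
lemma mode (hT : S_TPB) {d L : ℕ} [NeZero L] {M : ℕ}
    {μ : Measure ((Fin d → ZMod L) → ℝ)} [IsProbabilityMeasure μ] (f : (Fin d → ZMod L) → ℝ) :
    ∫ θ, r2 θ * cM M (r2 θ) * Nf f θ ∂μ =
      (∫ θ, cM M (r2 θ) * Lf f θ ^ 2 ∂μ) + ∫ θ, cM M (r2 θ) * Tf f θ ^ 2 ∂μ := by
  obtain ⟨-, -, -, -, mr, mN, mL, mT⟩ := hT.mem f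
  have hc := cMmem (V := Fin d → ZMod L) hT M
  have g1 : Integrable (fun θ => cM M (r2 θ) * Lf f θ ^ 2) μ :=
    integ hT μ _ (Subalgebra.mul_mem _ hc (Subalgebra.pow_mem _ mL 2))
  have g2 : Integrable (fun θ => cM M (r2 θ) * Tf f θ ^ 2) μ :=
    integ hT μ _ (Subalgebra.mul_mem _ hc (Subalgebra.pow_mem _ mT 2))
  rw [← integral_add g1 g2]
  refine integral_congr_ae (ae_of_all _ fun θ => ?_)
  have h := (hT.bounds f θ).2.2.1
  show r2 θ * cM M (r2 θ) * Nf f θ = cM M (r2 θ) * Lf f θ ^ 2 + cM M (r2 θ) * Tf f θ ^ 2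
  rw [← mul_add, h]
  ring

/-- The sum over the modes. -/
lemma core (hT : S_TPB) (hP : S_PLA) {d L : ℕ} [NeZero L] {U : ℝ} {M : ℕ}
    {μ : Measure ((Fin d → ZMod L) → ℝ)} (hE : Env U μ) {A C B D : ℝ} (hU : 0 < U)
    (hA : 0 ≤ A) (hC : 0 ≤ C) (hB : 0 ≤ B)
    (hbd : ∀ u, 0 ≤ u → u ≤ 1 → 0 ≤ cM M u ∧ cM M u ≤ B)
    (hDb : ∀ u, 0 ≤ u → u ≤ 1 → B ≤ u * cM M u + D * (1 - u))
    (hm : ∀ (l : ℝ) (f : (Fin d → ZMod L) → ℝ), 0 < l → (∀ x, lap f x = l * f x) → Cub f →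
      (∫ θ, cM M (r2 θ) * Lf f θ ^ 2 ∂μ) + ∫ θ, cM M (r2 θ) * Tf f θ ^ 2 ∂μ ≤
        (∑ x, f x ^ 2) * (A * Real.sqrt U / Real.sqrt l +
          C * U / ((Fintype.card (Fin d → ZMod L) : ℝ) * l))) :
    B * (Fintype.card (Fin d → ZMod L) : ℝ) ^ 2 * a1 μ ≤
      A * Real.sqrt U * (Fintype.card (Fin d → ZMod L) : ℝ) *
        (∑ k ∈ (Finset.univ : Finset (Fin d → ZMod L)).erase 0, 1 / Real.sqrt (lam k)) +
      C * U * (∑ k ∈ (Finset.univ : Finset (Fin d → ZMod L)).erase 0, 1 / lam k) +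
      3 ^ d * (B * (Fintype.card (Fin d → ZMod L) : ℝ) * Real.sqrt U) +
      D * (Fintype.card (Fin d → ZMod L) : ℝ) ^ 2 * a2 μ := by
  have := hE.prob
  obtain ⟨V, hV⟩ : ∃ V : ℝ, V = (Fintype.card (Fin d → ZMod L) : ℝ) := ⟨_, rfl⟩
  have hV0 : 0 < V := by rw [hV]; exact_mod_cast Fintype.card_pos
  rw [← hV]
  have hc := cMmem (V := Fin d → ZMod L) hT M
  have mr : (r2 : ((Fin d → ZMod L) → ℝ) → ℝ) ∈ TP (Fin d → ZMod L) :=
    (hT.mem (fun _ => 0)).2.2.2.2.1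
  have mN : ∀ f : (Fin d → ZMod L) → ℝ, Nf f ∈ TP (Fin d → ZMod L) :=
    fun f => (hT.mem f).2.2.2.2.2.1
  have m1 : (fun θ : (Fin d → ZMod L) → ℝ => 1 - r2 θ) ∈ TP (Fin d → ZMod L) :=
    Subalgebra.sub_mem _ (Subalgebra.one_mem _) mr
  have hN0 : ∀ (f : (Fin d → ZMod L) → ℝ) θ, 0 ≤ Nf f θ := fun f θ => by
    unfold Nf; positivity
  have hU' : 0 ≤ Real.sqrt U := Real.sqrt_nonneg U
  have hlow : ∀ k : Fin d → ZMod L, k ≠ 0 → 0 < lam k := by
    intro k hk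
    refine lt_of_lt_of_le ?_ (hP.low d L k hk)
    have : 0 < (L : ℝ) := by exact_mod_cast Nat.pos_of_ne_zero (NeZero.ne L)
    positivity
  -- the integral of one mode
  have hI : ∀ k : Fin d → ZMod L, Integrable (fun θ => r2 θ * cM M (r2 θ) *
      (Nf (ck k) θ + Nf (sk k) θ)) μ := fun k =>
    integ hT μ _ (Subalgebra.mul_mem _ (Subalgebra.mul_mem _ mr hc)
      (Subalgebra.add_mem _ (mN _) (mN _)))
  have hIf : ∀ f : (Fin d → ZMod L) → ℝ, Integrable (fun θ => r2 θ * cM M (r2 θ) * Nf f θ) μ :=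
    fun f => integ hT μ _ (Subalgebra.mul_mem _ (Subalgebra.mul_mem _ mr hc) (mN _))
  have hsplit : ∀ k : Fin d → ZMod L,
      ∫ θ, r2 θ * cM M (r2 θ) * (Nf (ck k) θ + Nf (sk k) θ) ∂μ =
        (∫ θ, r2 θ * cM M (r2 θ) * Nf (ck k) θ ∂μ) +
          ∫ θ, r2 θ * cM M (r2 θ) * Nf (sk k) θ ∂μ := by
    intro k
    rw [← integral_add (hIf _) (hIf _)]
    refine integral_congr_ae (ae_of_all _ fun θ => ?_)
    show r2 θ * cM M (r2 θ) * (Nf (ck k) θ + Nf (sk k) θ) =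
      r2 θ * cM M (r2 θ) * Nf (ck k) θ + r2 θ * cM M (r2 θ) * Nf (sk k) θ
    ring
  have hk : ∀ k ∈ (Finset.univ : Finset (Fin d → ZMod L)).erase 0,
      ∫ θ, r2 θ * cM M (r2 θ) * (Nf (ck k) θ + Nf (sk k) θ) ∂μ ≤
        A * Real.sqrt U * V * (1 / Real.sqrt (lam k)) + C * U * (1 / lam k) +
          (if 3 • k = 0 then B * V * Real.sqrt U else 0) := by
    intro k hk
    have hk0 : k ≠ 0 := Finset.ne_of_mem_erase hk
    have hl := hlow k hk0
    have hsl : 0 < Real.sqrt (lam k) := Real.sqrt_pos.2 hl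
    have hn := hP.norm d L k
    rw [← hV] at hn
    by_cases h3 : 3 • k = 0
    · rw [if_pos h3]
      have hl1 : 1 ≤ Real.sqrt (lam k) := by
        rw [Real.one_le_sqrt]
        have := hP.three d L k hk0 h3
        linarith
      have e1 : ∀ f : (Fin d → ZMod L) → ℝ, (∀ x, lap f x = lam k * f x) →
          ∫ θ, r2 θ * cM M (r2 θ) * Nf f θ ∂μ ≤ B * Real.sqrt U * ∑ x, f x ^ 2 := by
        intro f hf
        have a1 : ∫ θ, r2 θ * cM M (r2 θ) * Nf f θ ∂μ ≤ ∫ θ, B * Nf f θ ∂μ := by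
          refine integral_mono (hIf f) ((integ hT μ _ (mN f)).const_mul B) fun θ => ?_
          obtain ⟨b1, b2, -⟩ := hT.bounds f θ
          obtain ⟨b3, b4⟩ := hbd _ b1 b2
          show r2 θ * cM M (r2 θ) * Nf f θ ≤ B * Nf f θ
          apply mul_le_mul_of_nonneg_right _ (hN0 f θ)
          calc r2 θ * cM M (r2 θ) ≤ 1 * B := mul_le_mul b2 b4 b3 zero_le_one
            _ = B := one_mul B
        have a2 := hE.irb (lam k) f hl hf
        have a3 : Real.sqrt U / Real.sqrt (lam k) ≤ Real.sqrt U := div_le_self hU' hl1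
        have a4 : 0 ≤ ∑ x, f x ^ 2 := Finset.sum_nonneg fun x _ => sq_nonneg _
        rw [integral_const_mul] at a1
        calc ∫ θ, r2 θ * cM M (r2 θ) * Nf f θ ∂μ ≤ B * ∫ θ, Nf f θ ∂μ := a1
          _ ≤ B * (Real.sqrt U / Real.sqrt (lam k) * ∑ x, f x ^ 2) :=
            mul_le_mul_of_nonneg_left a2 hB
          _ ≤ B * (Real.sqrt U * ∑ x, f x ^ 2) :=
            mul_le_mul_of_nonneg_left (mul_le_mul_of_nonneg_right a3 a4) hB
          _ = _ := by ring
      have e2 := e1 (ck k) fun x => (hP.lapc d L k x).1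
      have e3 := e1 (sk k) fun x => (hP.lapc d L k x).2
      have e4 : 0 ≤ A * Real.sqrt U * V * (1 / Real.sqrt (lam k)) + C * U * (1 / lam k) := by
        positivity
      rw [hsplit k]
      have e5 : B * Real.sqrt U * (∑ x, ck k x ^ 2) + B * Real.sqrt U * (∑ x, sk k x ^ 2) =
          B * V * Real.sqrt U := by
        rw [← mul_add, hn]
        ring
      linarith
    · rw [if_neg h3, add_zero, hsplit k, mode hT, mode hT]
      have e2 := hm (lam k) (ck k) hl (fun x => (hP.lapc d L k x).1) (hP.cub d L k hk0 h3).1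
      have e3 := hm (lam k) (sk k) hl (fun x => (hP.lapc d L k x).2) (hP.cub d L k hk0 h3).2
      rw [← hV] at e2 e3
      have e5 : (∑ x, ck k x ^ 2) * (A * Real.sqrt U / Real.sqrt (lam k) + C * U / (V * lam k)) +
          (∑ x, sk k x ^ 2) * (A * Real.sqrt U / Real.sqrt (lam k) + C * U / (V * lam k)) =
          A * Real.sqrt U * V * (1 / Real.sqrt (lam k)) + C * U * (1 / lam k) := by
        rw [← add_mul, hn]
        field_simp
      linarith
  -- integration of the pointwise inequality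
  have hpt : ∀ θ : (Fin d → ZMod L) → ℝ, B * V ^ 2 * (1 - r2 θ) ≤
      (∑ k ∈ (Finset.univ : Finset (Fin d → ZMod L)).erase 0,
        r2 θ * cM M (r2 θ) * (Nf (ck k) θ + Nf (sk k) θ)) + D * V ^ 2 * (1 - r2 θ) ^ 2 := by
    intro θ
    have h := hP.planch d L θ
    rw [← hV] at h
    obtain ⟨b1, b2, -⟩ := hT.bounds (fun _ : Fin d → ZMod L => (0 : ℝ)) θ
    have h3 := hDb _ b1 b2
    rw [← Finset.mul_sum, h]
    have h4 : 0 ≤ V ^ 2 * (1 - r2 θ) := mul_nonneg (by positivity) (by linarith)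
    have h5 := mul_le_mul_of_nonneg_right h3 h4
    calc B * V ^ 2 * (1 - r2 θ) = B * (V ^ 2 * (1 - r2 θ)) := by ring
      _ ≤ (r2 θ * cM M (r2 θ) + D * (1 - r2 θ)) * (V ^ 2 * (1 - r2 θ)) := h5
      _ = _ := by ring
  have hint : B * V ^ 2 * a1 μ ≤
      (∑ k ∈ (Finset.univ : Finset (Fin d → ZMod L)).erase 0,
        ∫ θ, r2 θ * cM M (r2 θ) * (Nf (ck k) θ + Nf (sk k) θ) ∂μ) + D * V ^ 2 * a2 μ := by
    have g1 : Integrable (fun θ : (Fin d → ZMod L) → ℝ => B * V ^ 2 * (1 - r2 θ)) μ :=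
      (integ hT μ _ m1).const_mul _
    have g2 : Integrable (fun θ : (Fin d → ZMod L) → ℝ =>
        ∑ k ∈ (Finset.univ : Finset (Fin d → ZMod L)).erase 0,
          r2 θ * cM M (r2 θ) * (Nf (ck k) θ + Nf (sk k) θ)) μ :=
      integrable_finsetSum _ fun k _ => hI k
    have g3 : Integrable (fun θ : (Fin d → ZMod L) → ℝ => D * V ^ 2 * (1 - r2 θ) ^ 2) μ :=
      (integ hT μ _ (Subalgebra.pow_mem _ m1 2)).const_mul _
    have g4 := integral_mono g1 (g2.add g3) hpt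
    simp only [Pi.add_apply] at g4
    rw [integral_add g2 g3, integral_finsetSum _ fun k _ => hI k, integral_const_mul,
      integral_const_mul] at g4
    exact g4
  have hsum := Finset.sum_le_sum hk
  rw [Finset.sum_add_distrib, Finset.sum_add_distrib, ← Finset.mul_sum, ← Finset.mul_sum] at hsum
  have hite : ∑ k ∈ (Finset.univ : Finset (Fin d → ZMod L)).erase 0,
      (if 3 • k = 0 then B * V * Real.sqrt U else 0) ≤ 3 ^ d * (B * V * Real.sqrt U) := by
    have h0 : 0 ≤ B * V * Real.sqrt U := by positivity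
    calc ∑ k ∈ (Finset.univ : Finset (Fin d → ZMod L)).erase 0,
        (if 3 • k = 0 then B * V * Real.sqrt U else 0)
        ≤ ∑ k : Fin d → ZMod L, (if 3 • k = 0 then B * V * Real.sqrt U else 0) := by
          apply Finset.sum_le_sum_of_subset_of_nonneg (Finset.erase_subset _ _)
          intro k _ _
          split_ifs
          · exact h0
          · exact le_rfl
      _ = ((Finset.univ : Finset (Fin d → ZMod L)).filter (fun k => 3 • k = 0)).card *
            (B * V * Real.sqrt U) := by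
          rw [← Finset.sum_filter, Finset.sum_const, nsmul_eq_mul]
      _ ≤ 3 ^ d * (B * V * Real.sqrt U) := by
          apply mul_le_mul_of_nonneg_right _ h0
          exact_mod_cast hP.few d L
  linarith

theorem main (hT : S_TPB) (hS : S_SUMQ) (hP : S_PLA) (hL : Pool.Agent.N657.QR.S_LAT)
    (hR : S_RATIO) (h1 : S_TRANS) (h2 : S_LONG) : Pool.Agent.N657.QL.S_UP := by
  intro d hd ε hε
  obtain ⟨C1, hC1, hlat⟩ := hL d hd
  obtain ⟨C2, hC2, hsum⟩ := hS d hd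
  obtain ⟨δ, hδ⟩ : ∃ δ, δ = min 1 (ε / (12 * C1)) := ⟨_, rfl⟩
  have hδ0 : 0 < δ := by rw [hδ]; exact lt_min one_pos (by positivity)
  have hδ1 : δ ≤ 1 := by rw [hδ]; exact min_le_left _ _
  have hδ2 : δ * (12 * C1) ≤ ε := by
    have : δ ≤ ε / (12 * C1) := by rw [hδ]; exact min_le_right _ _
    rwa [le_div_iff₀ (by positivity)] at this
  obtain ⟨M, hM, hMr⟩ := hR.1 δ hδ0
  obtain ⟨hB, hbd, D, hD, hDb⟩ := hR.2 M hM
  obtain ⟨C3, hC3, ht⟩ := h1 M δ hδ0
  obtain ⟨a0, C4, ha0, hC4, hl⟩ := h2 M (δ * cM M 1) (mul_pos hδ0 hB)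
  obtain ⟨B, hBe⟩ : ∃ B, B = cM M 1 := ⟨_, rfl⟩
  rw [← hBe] at hB hMr hDb hl
  obtain ⟨K, hK⟩ : ∃ K, K = (C3 + C4) * C1 / (4 * B) + 3 ^ d := ⟨_, rfl⟩
  have hK0 : 0 < K := by rw [hK]; positivity
  refine ⟨min 1 (min ((a0 / C2) ^ 2) ((ε * B / (3 * (D * C2 + 1))) ^ 2)), by positivity, ?_⟩
  intro U hU hU0
  have hU1 : U ≤ 1 := hU0.trans (min_le_left _ _)
  have hUa : Real.sqrt U ≤ a0 / C2 := by
    rw [← Real.sqrt_sq (by positivity : 0 ≤ a0 / C2)]
    exact Real.sqrt_le_sqrt (hU0.trans ((min_le_right _ _).trans (min_le_left _ _)))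
  have hUb : Real.sqrt U ≤ ε * B / (3 * (D * C2 + 1)) := by
    rw [← Real.sqrt_sq (by positivity : 0 ≤ ε * B / (3 * (D * C2 + 1)))]
    exact Real.sqrt_le_sqrt (hU0.trans ((min_le_right _ _).trans (min_le_right _ _)))
  obtain ⟨L1, hL1⟩ := hsum U hU hU1
  refine ⟨max L1 (⌈3 * K / ε⌉₊ + 1), ?_⟩
  intro L _ hLL μ hE
  obtain ⟨ha1, ha2⟩ := hL1 L ((le_max_left _ _).trans hLL) μ hE
  have hLK : 3 * K / ε ≤ L := by
    refine (Nat.le_ceil _).trans ?_
    exact_mod_cast (Nat.le_succ _).trans ((le_max_right _ _).trans hLL)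
  have hL0 : 0 < (L : ℝ) := by exact_mod_cast Nat.pos_of_ne_zero (NeZero.ne L)
  have hL1' : (1 : ℝ) ≤ L := by exact_mod_cast Nat.pos_of_ne_zero (NeZero.ne L)
  have hsU : 0 < Real.sqrt U := Real.sqrt_pos.2 hU
  have hUU : Real.sqrt U * Real.sqrt U = U := Real.mul_self_sqrt hU.le
  have hs2 : 0 < Real.sqrt 2 := Real.sqrt_pos.2 two_pos
  have hs21 : 1 ≤ Real.sqrt 2 := by rw [Real.one_le_sqrt]; norm_num
  have hAM : 1 ≤ AM M 1 := (hbd 1 zero_le_one le_rfl).1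
  have haa : a1 μ ≤ a0 := by
    refine ha1.trans ?_
    rw [le_div_iff₀ hC2] at hUa
    linarith
  obtain ⟨A, hA⟩ : ∃ A, A = (1 + δ) * AM M 1 / Real.sqrt 2 + δ * B := ⟨_, rfl⟩
  have hA0 : 0 ≤ A := by rw [hA]; positivity
  have hcore := core hT hP (M := M) (A := A) (C := C3 + C4) (B := B) (D := D) hE hU hA0
    (by positivity) hB.le
    (fun u h0 h1 => by rw [hBe]; exact (hbd u h0 h1).2.2) hDb (by
      intro l f hl0 hf hcub
      have t1 := ht d L U l μ f hU hl0 hE hf hcub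
      have t2 := hl d L U l μ f hU hl0 hE hf hcub haa
      have hsl : 0 < Real.sqrt l := Real.sqrt_pos.2 hl0
      have hV0 : 0 < (Fintype.card (Fin d → ZMod L) : ℝ) := by exact_mod_cast Fintype.card_pos
      have e : (∑ x, f x ^ 2) * (A * Real.sqrt U / Real.sqrt l +
          (C3 + C4) * U / ((Fintype.card (Fin d → ZMod L) : ℝ) * l)) =
          ((1 + δ) * AM M 1 * (∑ x, f x ^ 2) * Real.sqrt U / (Real.sqrt 2 * Real.sqrt l) +
          C3 * (∑ x, f x ^ 2) * U / ((Fintype.card (Fin d → ZMod L) : ℝ) * l)) +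
          (δ * B * (∑ x, f x ^ 2) * Real.sqrt U / Real.sqrt l +
          C4 * (∑ x, f x ^ 2) * U / ((Fintype.card (Fin d → ZMod L) : ℝ) * l)) := by
        rw [hA]
        field_simp
        ring
      rw [e]
      linarith)
  have hcard : (Fintype.card (Fin d → ZMod L) : ℝ) = (L : ℝ) ^ d := by
    rw [Fintype.card_pi]
    simp [ZMod.card]
  have hIL : IL d L = (∑ k ∈ (Finset.univ : Finset (Fin d → ZMod L)).erase 0,
      1 / Real.sqrt (lam k)) / (Fintype.card (Fin d → ZMod L) : ℝ) := rfl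
  obtain ⟨S, hSe⟩ : ∃ S, S = ∑ k ∈ (Finset.univ : Finset (Fin d → ZMod L)).erase 0,
      1 / Real.sqrt (lam k) := ⟨_, rfl⟩
  obtain ⟨V, hV⟩ : ∃ V : ℝ, V = (Fintype.card (Fin d → ZMod L) : ℝ) := ⟨_, rfl⟩
  have hV0 : 0 < V := by rw [hV]; exact_mod_cast Fintype.card_pos
  have hVL : (L : ℝ) ^ 2 ≤ V := by
    rw [hV, hcard]
    exact pow_le_pow_right₀ hL1' hd
  have hlat' := hlat L
  have hS0 : 0 ≤ S := by
    rw [hSe]
    exact Finset.sum_nonneg fun k _ => by positivity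
  -- the sum of the `1 / lam`
  have hlam : ∑ k ∈ (Finset.univ : Finset (Fin d → ZMod L)).erase 0, 1 / lam k ≤
      (L : ℝ) / 4 * S := by
    rw [hSe, Finset.mul_sum]
    refine Finset.sum_le_sum fun k hk => ?_
    have hk0 : k ≠ 0 := Finset.ne_of_mem_erase hk
    have h16 := hP.low d L k hk0
    have hlk : 0 < lam k := lt_of_lt_of_le (by positivity) h16
    have hsl : 0 < Real.sqrt (lam k) := Real.sqrt_pos.2 hlk
    have h4 : 4 / (L : ℝ) ≤ Real.sqrt (lam k) := by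
      rw [← Real.sqrt_sq (by positivity : (0 : ℝ) ≤ 4 / L)]
      apply Real.sqrt_le_sqrt
      calc (4 / (L : ℝ)) ^ 2 = 16 / (L : ℝ) ^ 2 := by ring
        _ ≤ _ := h16
    rw [div_le_iff₀ hL0] at h4
    have e : (1 : ℝ) / lam k = 1 / Real.sqrt (lam k) * (1 / Real.sqrt (lam k)) := by
      rw [one_div_mul_one_div, Real.mul_self_sqrt hlk.le]
    rw [e]
    apply mul_le_mul_of_nonneg_right _ (by positivity)
    rw [div_le_iff₀ hsl]
    linarith
  rw [← hV, ← hSe] at hcore hIL hlat'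
  -- collect
  have hILC : IL d L ≤ C1 := by
    rw [hIL, div_le_iff₀ hV0]
    exact hlat'
  have hIL0 : 0 ≤ IL d L := by rw [hIL]; positivity
  have hSI : S = IL d L * V := by rw [hIL]; field_simp
  have hAle : A ≤ B * (IL d L * 0 + ((1 + δ) ^ 2 / Real.sqrt 2 + δ)) := by
    rw [hA]
    have : (1 + δ) * AM M 1 / Real.sqrt 2 ≤ (1 + δ) * ((1 + δ) * B) / Real.sqrt 2 := by
      gcongr
    calc (1 + δ) * AM M 1 / Real.sqrt 2 + δ * B
        ≤ (1 + δ) * ((1 + δ) * B) / Real.sqrt 2 + δ * B := by linarith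
      _ = _ := by ring
  rw [mul_zero, zero_add] at hAle
  have hUs : U ≤ Real.sqrt U := by
    have : Real.sqrt U ≤ 1 := by rw [Real.sqrt_le_one]; exact hU1
    nlinarith
  -- term 1
  have T1 : A * Real.sqrt U * V * S ≤
      B * V ^ 2 * (Real.sqrt U * (IL d L * ((1 + δ) ^ 2 / Real.sqrt 2 + δ))) := by
    rw [hSI]
    have h0 : 0 ≤ Real.sqrt U * V * (IL d L * V) := by positivity
    calc A * Real.sqrt U * V * (IL d L * V) = A * (Real.sqrt U * V * (IL d L * V)) := by ring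
      _ ≤ B * ((1 + δ) ^ 2 / Real.sqrt 2 + δ) * (Real.sqrt U * V * (IL d L * V)) :=
        mul_le_mul_of_nonneg_right hAle h0
      _ = _ := by ring
  -- term 2
  have T2 : (C3 + C4) * U * (∑ k ∈ (Finset.univ : Finset (Fin d → ZMod L)).erase 0, 1 / lam k) ≤
      B * V ^ 2 * (Real.sqrt U * ((C3 + C4) * C1 / (4 * B) / L)) := by
    have h0 : ∑ k ∈ (Finset.univ : Finset (Fin d → ZMod L)).erase 0, 1 / lam k ≤
        (L : ℝ) / 4 * (C1 * V) :=
      hlam.trans (mul_le_mul_of_nonneg_left hlat' (by positivity))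
    calc (C3 + C4) * U * (∑ k ∈ (Finset.univ : Finset (Fin d → ZMod L)).erase 0, 1 / lam k)
        ≤ (C3 + C4) * U * ((L : ℝ) / 4 * (C1 * V)) :=
          mul_le_mul_of_nonneg_left h0 (by positivity)
      _ ≤ (C3 + C4) * Real.sqrt U * ((L : ℝ) / 4 * (C1 * V)) := by gcongr
      _ = (C3 + C4) * Real.sqrt U * C1 * V / (4 * L) * (L : ℝ) ^ 2 := by
          field_simp
      _ ≤ (C3 + C4) * Real.sqrt U * C1 * V / (4 * L) * V :=
          mul_le_mul_of_nonneg_left hVL (by positivity)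
      _ = _ := by field_simp
  -- term 3
  have T3 : 3 ^ d * (B * V * Real.sqrt U) ≤ B * V ^ 2 * (Real.sqrt U * (3 ^ d / L)) := by
    have h0 : (L : ℝ) ≤ V := le_trans (by nlinarith) hVL
    calc 3 ^ d * (B * V * Real.sqrt U) = 3 ^ d * B * V * Real.sqrt U / L * L := by field_simp
      _ ≤ 3 ^ d * B * V * Real.sqrt U / L * V := mul_le_mul_of_nonneg_left h0 (by positivity)
      _ = _ := by field_simp
  -- term 4
  have T4 : D * V ^ 2 * a2 μ ≤ B * V ^ 2 * (Real.sqrt U * (D * C2 / B * Real.sqrt U)) := by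
    calc D * V ^ 2 * a2 μ ≤ D * V ^ 2 * (C2 * U) := mul_le_mul_of_nonneg_left ha2 (by positivity)
      _ = B * V ^ 2 * ((D * C2 / B) * U) := by field_simp
      _ = B * V ^ 2 * ((D * C2 / B) * (Real.sqrt U * Real.sqrt U)) := by rw [hUU]
      _ = _ := by ring
  have hfin : B * V ^ 2 * a1 μ ≤ B * V ^ 2 * (Real.sqrt U *
      (IL d L * ((1 + δ) ^ 2 / Real.sqrt 2 + δ) + (C3 + C4) * C1 / (4 * B) / L + 3 ^ d / L +
        D * C2 / B * Real.sqrt U)) := by
    have e : B * V ^ 2 * (Real.sqrt U *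
      (IL d L * ((1 + δ) ^ 2 / Real.sqrt 2 + δ) + (C3 + C4) * C1 / (4 * B) / L + 3 ^ d / L +
        D * C2 / B * Real.sqrt U)) =
        B * V ^ 2 * (Real.sqrt U * (IL d L * ((1 + δ) ^ 2 / Real.sqrt 2 + δ))) +
        B * V ^ 2 * (Real.sqrt U * ((C3 + C4) * C1 / (4 * B) / L)) +
        B * V ^ 2 * (Real.sqrt U * (3 ^ d / L)) +
        B * V ^ 2 * (Real.sqrt U * (D * C2 / B * Real.sqrt U)) := by ring
    rw [e]
    linarith
  have hfin2 := le_of_mul_le_mul_left hfin (by positivity)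
  refine hfin2.trans ?_
  rw [mul_comm]
  apply mul_le_mul_of_nonneg_right _ hsU.le
  -- the three errors
  have E1 : IL d L * ((1 + δ) ^ 2 / Real.sqrt 2 + δ) ≤ IL d L / Real.sqrt 2 + ε / 3 := by
    have f1 : (1 + δ) ^ 2 / Real.sqrt 2 ≤ 1 / Real.sqrt 2 + 3 * δ := by
      have g1 : (1 + δ) ^ 2 ≤ 1 + 3 * δ := by nlinarith
      have g2 : 3 * δ / Real.sqrt 2 ≤ 3 * δ := div_le_self (by positivity) hs21
      calc (1 + δ) ^ 2 / Real.sqrt 2 ≤ (1 + 3 * δ) / Real.sqrt 2 := by gcongr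
        _ = 1 / Real.sqrt 2 + 3 * δ / Real.sqrt 2 := by ring
        _ ≤ _ := by linarith
    calc IL d L * ((1 + δ) ^ 2 / Real.sqrt 2 + δ)
        ≤ IL d L * (1 / Real.sqrt 2 + 3 * δ + δ) :=
          mul_le_mul_of_nonneg_left (by linarith) hIL0
      _ = IL d L / Real.sqrt 2 + IL d L * (4 * δ) := by ring
      _ ≤ IL d L / Real.sqrt 2 + C1 * (4 * δ) := by
          have := mul_le_mul_of_nonneg_right hILC (by positivity : 0 ≤ 4 * δ)
          linarith
      _ ≤ _ := by linarith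
  have E2 : (C3 + C4) * C1 / (4 * B) / L + 3 ^ d / L ≤ ε / 3 := by
    rw [← add_div, ← hK, div_le_iff₀ hL0]
    rw [div_le_iff₀ hε] at hLK
    linarith
  have E3 : D * C2 / B * Real.sqrt U ≤ ε / 3 := by
    have hq : 0 < D * C2 + 1 := by positivity
    calc D * C2 / B * Real.sqrt U ≤ D * C2 / B * (ε * B / (3 * (D * C2 + 1))) :=
          mul_le_mul_of_nonneg_left hUb (by positivity)
      _ = ε / 3 * (D * C2 / (D * C2 + 1)) := by field_simp
      _ ≤ ε / 3 * 1 := by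
          apply mul_le_mul_of_nonneg_left _ (by positivity)
          rw [div_le_one hq]
          linarith
      _ = ε / 3 := mul_one _
  linarith

end Pool.Agent.N222.QLUP
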