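import Pool.Agent.N753.SU.StmM
import Pool.Agent.N34.SU_O

/-!
# SU/OM: two different hypersurfaces of `(P¹)^(m+1)` meet over few primes
(port of `N34/SU_O` to a base of several variables; helper222)
-/

set_option autoImplicit false

namespace Pool.Agent.N222.SUOM

open NumberField IsDedekindDomain Finset Pool.Agent.H691R3
open Pool.Agent.TH876.Loc hiding mx
open Pool.Agent.N753.LS Pool.Agent.N753.SF Pool.Agent.N753.SU Polynomial Height
open Pool.Agent.N34.SUO (sum_big sum_small fin_big fin_small)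

/-! ### Bézout -/

section bezout

variable {R : Type} [CommRing R] [IsDomain R]

/-- clearing denominators -/
theorem clear {L : Type} [Field L] [Algebra R L] [IsFractionRing R L] (a : L[X]) :
    ∃ (m : R) (A : R[X]), m ≠ 0 ∧
      A.map (algebraMap R L) = C (algebraMap R L m) * a := by
  obtain ⟨m, hm0, hm⟩ := IsLocalization.integerNormalization_spec (nonZeroDivisors R) a
  refine ⟨m, IsLocalization.integerNormalization (nonZeroDivisors R) a,
    nonZeroDivisors.ne_zero hm0, ?_⟩
  ext i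
  rw [hm, coeff_smul, coeff_C_mul, Algebra.smul_def]

variable [UniqueFactorizationMonoid R]

theorem coprime_frac (F G : R[X]) (hF : Irreducible F) (hG : Irreducible G)
    (hFG : ¬ Associated F G) (hd : 1 ≤ F.natDegree) :
    IsCoprime (F.map (algebraMap R (FractionRing R)))
      (G.map (algebraMap R (FractionRing R))) := by
  have hFp : F.IsPrimitive := hF.isPrimitive (by omega)
  have hF' : Irreducible (F.map (algebraMap R (FractionRing R))) :=
    (hFp.irreducible_iff_irreducible_map_fraction_map).1 hF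
  have hinj : Function.Injective (algebraMap R (FractionRing R)) :=
    IsFractionRing.injective R (FractionRing R)
  rw [hF'.coprime_iff_not_dvd]
  intro hdvd
  rcases Nat.eq_zero_or_pos G.natDegree with h0 | h0
  · have h1 : G.map (algebraMap R (FractionRing R)) ≠ 0 := by
      rw [Ne, Polynomial.map_eq_zero_iff hinj]
      exact hG.ne_zero
    have h2 := natDegree_le_of_dvd hdvd h1
    rw [natDegree_map_eq_of_injective hinj, natDegree_map_eq_of_injective hinj] at h2
    omega
  · have hGp : G.IsPrimitive := hG.isPrimitive (by omega)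
    have h1 : F ∣ G := hFp.dvd_of_fraction_map_dvd_fraction_map hdvd
    exact hFG (hF.associated_of_dvd hG h1)

theorem bezout (F G : R[X]) (hF : Irreducible F) (hG : Irreducible G)
    (hFG : ¬ Associated F G) (hd : 1 ≤ F.natDegree) :
    ∃ (A B : R[X]) (n : R), n ≠ 0 ∧ A * F + B * G = C n := by
  obtain ⟨a, b, hab⟩ := coprime_frac F G hF hG hFG hd
  obtain ⟨m, A, hm, hA⟩ := clear (R := R) (L := FractionRing R) a
  obtain ⟨n, B, hn, hB⟩ := clear (R := R) (L := FractionRing R) b
  refine ⟨C n * A, C m * B, m * n, mul_ne_zero hm hn, ?_⟩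
  apply Polynomial.map_injective (algebraMap R (FractionRing R))
    (IsFractionRing.injective R (FractionRing R))
  rw [Polynomial.map_add, Polynomial.map_mul, Polynomial.map_mul, Polynomial.map_mul,
    Polynomial.map_mul, Polynomial.map_C, Polynomial.map_C, Polynomial.map_C, hA, hB, map_mul,
    C_mul]
  linear_combination (C (algebraMap R (FractionRing R) m) *
    C (algebraMap R (FractionRing R) n)) * hab

end bezout

variable {K : Type} [Field K] [NumberField K] {m : ℕ}

/-- the height of the value of a polynomial in several variables -/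
theorem height_evalm (f : MvPolynomial (Fin m) K) : ∃ C : ℝ, 0 ≤ C ∧ ∀ y : Fin m → K,
    logHeight₁ (MvPolynomial.eval y f) ≤ C * (1 + ∑ i, logHeight₁ (y i)) := by
  induction f using MvPolynomial.induction_on with
  | C a =>
    refine ⟨logHeight₁ a, zero_le_logHeight₁ a, fun y => ?_⟩
    rw [MvPolynomial.eval_C]
    have h1 := zero_le_logHeight₁ a
    have h2 : 0 ≤ ∑ i, logHeight₁ (y i) := Finset.sum_nonneg fun i _ => zero_le_logHeight₁ _
    nlinarith
  | add p q hp hq =>
    obtain ⟨C, hC, h1⟩ := hp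
    obtain ⟨D, hD, h2⟩ := hq
    have hw : 0 ≤ (totalWeight K : ℝ) * Real.log 2 :=
      mul_nonneg (Nat.cast_nonneg _) (Real.log_nonneg (by norm_num))
    refine ⟨C + D + totalWeight K * Real.log 2, by positivity, fun x => ?_⟩
    rw [map_add]
    refine (logHeight₁_add_le _ _).trans ?_
    have h3 := h1 x
    have h4 := h2 x
    have h5 : 0 ≤ ∑ i, logHeight₁ (x i) := Finset.sum_nonneg fun i _ => zero_le_logHeight₁ _
    nlinarith
  | mul_X p i hp =>
    obtain ⟨C, hC, h1⟩ := hp
    refine ⟨C + 1, by positivity, fun x => ?_⟩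
    rw [map_mul, MvPolynomial.eval_X]
    refine (logHeight₁_mul_le _ _).trans ?_
    have h3 := h1 x
    have h5 : logHeight₁ (x i) ≤ ∑ i, logHeight₁ (x i) :=
      Finset.single_le_sum (f := fun i => logHeight₁ (x i))
        (fun i _ => zero_le_logHeight₁ _) (Finset.mem_univ i)
    linarith

/-! ### integral polynomials -/

/-- all coefficients are integral at `v` -/
def In1 (v : Pr K) (p : MvPolynomial (Fin m) K) : Prop := ∀ s, fv v (p.coeff s) ≤ 1

/-- all coefficients are integral at `v` -/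
def In2 (v : Pr K) (P : (MvPolynomial (Fin m) K)[X]) : Prop := ∀ i, In1 v (P.coeff i)

theorem fin_In2 (P : (MvPolynomial (Fin m) K)[X]) : {v : Pr K | ¬ In2 v P}.Finite := by
  classical
  have h : {v : Pr K | ¬ In2 v P} ⊆
      ⋃ i ∈ P.support, ⋃ j ∈ (P.coeff i).support, {v : Pr K | 1 < fv v ((P.coeff i).coeff j)} := by
    intro v hv
    have hv' : ¬ In2 v P := hv
    unfold In2 In1 at hv'
    push Not at hv'
    obtain ⟨i, j, hij⟩ := hv'
    have h1 : (P.coeff i).coeff j ≠ 0 := by
      intro h0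
      rw [h0, map_zero] at hij
      linarith
    have h2 : P.coeff i ≠ 0 := by
      intro h0
      rw [h0, MvPolynomial.coeff_zero] at h1
      exact h1 rfl
    simp only [Set.mem_iUnion]
    exact ⟨i, mem_support_iff.2 h2, j, MvPolynomial.mem_support_iff.2 h1, hij⟩
  refine Set.Finite.subset ?_ h
  refine Set.Finite.biUnion (Finset.finite_toSet _) fun i _ => ?_
  exact Set.Finite.biUnion (Finset.finite_toSet _) fun j _ => fin_big _

theorem fv_prod_le (v : Pr K) (s : Fin m →₀ ℕ) {y : Fin m → K} (hy : ∀ i, fv v (y i) ≤ 1) :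
    fv v (∏ i, y i ^ s i) ≤ 1 := by
  rw [map_prod]
  refine Finset.prod_le_one (fun i _ => (fv v).nonneg _) fun i _ => ?_
  rw [map_pow]
  exact pow_le_one₀ ((fv v).nonneg _) (hy i)

theorem fv_eval1 {v : Pr K} {p : MvPolynomial (Fin m) K} (hp : In1 v p) {y : Fin m → K}
    (hy : ∀ i, fv v (y i) ≤ 1) : fv v (MvPolynomial.eval y p) ≤ 1 := by
  rw [MvPolynomial.eval_eq']
  refine fv_sum_le v _ _ 1 zero_le_one fun s _ => ?_
  rw [map_mul]
  have h1 := hp s
  have h2 := fv_prod_le v s hy
  have h3 := (fv v).nonneg (p.coeff s)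
  have h4 := (fv v).nonneg (∏ i, y i ^ s i)
  nlinarith

theorem fv_eval2 {v : Pr K} {P : (MvPolynomial (Fin m) K)[X]} (hP : In2 v P) {y : Fin m → K}
    {x : K} (hy : ∀ i, fv v (y i) ≤ 1) (hx : fv v x ≤ 1) :
    fv v ((P.map (MvPolynomial.eval y)).eval x) ≤ 1 := by
  rw [eval_eq_sum_range]
  refine fv_sum_le v _ _ 1 zero_le_one fun i _ => ?_
  rw [map_mul, map_pow, coeff_map]
  have h1 := fv_eval1 (hP i) hy
  have h2 : fv v x ^ i ≤ 1 := pow_le_one₀ ((fv v).nonneg x) hx
  have h3 := (fv v).nonneg (MvPolynomial.eval y (P.coeff i))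
  have h4 : 0 ≤ fv v x ^ i := pow_nonneg ((fv v).nonneg x) i
  nlinarith

open Classical in
theorem sum_union_le (S T : Finset (Pr K)) : ∑ v ∈ S ∪ T, Real.log (Nv v) ≤
    ∑ v ∈ S, Real.log (Nv v) + ∑ v ∈ T, Real.log (Nv v) := by
  rw [← Finset.sum_union_inter]
  have : 0 ≤ ∑ v ∈ S ∩ T, Real.log (Nv v) := Finset.sum_nonneg fun v _ => (log_Nv_pos v).le
  linarith

open Classical in
theorem sum_biUnion_le' {α : Type} (s : Finset α) (T : α → Finset (Pr K)) :
    ∑ v ∈ s.biUnion T, Real.log (Nv v) ≤ ∑ i ∈ s, ∑ v ∈ T i, Real.log (Nv v) := by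
  induction s using Finset.induction_on with
  | empty => simp
  | insert i s hi ih =>
    rw [Finset.biUnion_insert, Finset.sum_insert hi]
    exact (sum_union_le _ _).trans (by linarith)

/-- **SU/OM** -/
theorem stmOM : StmOM := by
  classical
  intro K _ _ m F G hF hG hFG hd
  obtain ⟨P, hP⟩ : ∃ P, P = MvPolynomial.finSuccEquiv K m F := ⟨_, rfl⟩
  obtain ⟨Q, hQ⟩ : ∃ Q, Q = MvPolynomial.finSuccEquiv K m G := ⟨_, rfl⟩
  have hPi : Irreducible P := by
    rw [hP]
    exact (MulEquiv.irreducible_iff (MvPolynomial.finSuccEquiv K m)).2 hF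
  have hQi : Irreducible Q := by
    rw [hQ]
    exact (MulEquiv.irreducible_iff (MvPolynomial.finSuccEquiv K m)).2 hG
  have hPQ : ¬ Associated P Q := by
    intro h
    apply hFG
    have h2 := h.map (MvPolynomial.finSuccEquiv K m).symm
    rw [hP, hQ] at h2
    simpa using h2
  have hdP : 1 ≤ P.natDegree := by
    rw [hP, MvPolynomial.natDegree_finSuccEquiv]
    exact hd
  obtain ⟨A, B, R, hR, hAB⟩ := bezout P Q hPi hQi hPQ hdP
  obtain ⟨C1, hC1, h1⟩ := height_evalm R
  obtain ⟨B0, hB0⟩ : ∃ B0 : Finset (Pr K), ∀ v ∉ B0, In2 v A ∧ In2 v B := by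
    refine ⟨(fin_In2 A).toFinset ∪ (fin_In2 B).toFinset, fun v hv => ?_⟩
    simp only [Finset.mem_union, Set.Finite.mem_toFinset, Set.mem_ofPred_eq, not_or, not_not] at hv
    exact hv
  have hS0 : 0 ≤ ∑ v ∈ B0, Real.log (Nv v) := Finset.sum_nonneg fun v _ => (log_Nv_pos v).le
  refine ⟨R, ∑ v ∈ B0, Real.log (Nv v) + 1 + C1, hR, by positivity, fun y hy => ?_⟩
  obtain ⟨T1, hT1⟩ : ∃ T : Fin m → Finset (Pr K), ∀ i v, v ∈ T i ↔ 1 < fv v (y i) :=
    ⟨fun i => (fin_big (y i)).toFinset, fun i v => by simp⟩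
  obtain ⟨T2, hT2⟩ : ∃ T : Finset (Pr K), ∀ v, v ∈ T ↔ fv v (MvPolynomial.eval y R) < 1 :=
    ⟨(fin_small hy).toFinset, fun v => by simp⟩
  refine ⟨B0 ∪ univ.biUnion T1 ∪ T2, ?_, fun v hv => ?_⟩
  · have e1 := sum_union_le (B0 ∪ univ.biUnion T1) T2
    have e2 := sum_union_le B0 (univ.biUnion T1)
    have e3 := sum_biUnion_le' univ T1
    have f1 : ∑ i, ∑ v ∈ T1 i, Real.log (Nv v) ≤ ∑ i, logHeight₁ (y i) :=
      Finset.sum_le_sum fun i _ => sum_big (y i) (T1 i) fun v hv => (hT1 i v).1 hv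
    have f2 := sum_small hy T2 fun v hv => (hT2 v).1 hv
    have g2 := h1 y
    have hh : 0 ≤ ∑ i, logHeight₁ (y i) := Finset.sum_nonneg fun i _ => zero_le_logHeight₁ _
    simp only [hr_aff]
    nlinarith
  · simp only [Finset.mem_union, Finset.mem_biUnion, Finset.mem_univ, true_and, not_or,
      not_exists, hT1, hT2, not_lt] at hv
    obtain ⟨⟨hv0, hv1⟩, hv2⟩ := hv
    obtain ⟨iA, iB⟩ := hB0 v hv0
    refine ⟨hv1, fun x hx => ?_⟩
    rintro ⟨hFx, hGx⟩
    have e := congrArg (fun P : (MvPolynomial (Fin m) K)[X] =>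
      (P.map (MvPolynomial.eval y)).eval x) hAB
    simp only [Polynomial.map_add, Polynomial.map_mul, Polynomial.map_C, eval_add, eval_mul,
      eval_C] at e
    have eF : (P.map (MvPolynomial.eval y)).eval x =
        MvPolynomial.eval (Fin.cons x y : Fin (m + 1) → K) F := by
      rw [hP]
      exact eval_fibm F y x
    have eG : (Q.map (MvPolynomial.eval y)).eval x =
        MvPolynomial.eval (Fin.cons x y : Fin (m + 1) → K) G := by
      rw [hQ]
      exact eval_fibm G y x
    rw [eF, eG] at e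
    have h5 : fv v (MvPolynomial.eval y R) < 1 := by
      rw [← e]
      exact (fv_na v _ _).trans_lt (max_lt (fv_mul_lt (fv_eval2 iA hv1 hx) hFx)
        (fv_mul_lt (fv_eval2 iB hv1 hx) hGx))
    linarith

end Pool.Agent.N222.SUOM

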