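import Pool.Agent.N580.SY.Stm

/-!
# Leaf SY/MAT: the path matrix of a circuit
-/

namespace Pool.Agent.N222.SY

open Finset Pool.Agent.N580.SY

open Classical in
/-- one step matrix of a circuit -/
noncomputable def K {V F N : Type} [Field F] (S : Circuit V F N) (c : N → F) : Matrix N N F :=
  fun n n' =>
    match S.lab n with
    | .add => S.wt n n'
    | .mul => c (S.lft n) * (if n' = S.rgt n then 1 else 0) +
        c (S.rgt n) * (if n' = S.lft n then 1 else 0)
    | .var _ => 0
    | .const _ => 0

theorem K_var {V F N : Type} [Field F] (S : Circuit V F N) (c : N → F) {n : N} {v : V}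
    (h : S.lab n = .var v) (n' : N) : K S c n n' = 0 := by
  simp [K, h]

theorem K_const {V F N : Type} [Field F] (S : Circuit V F N) (c : N → F) {n : N} {a : F}
    (h : S.lab n = .const a) (n' : N) : K S c n n' = 0 := by
  simp [K, h]

theorem K_add {V F N : Type} [Field F] (S : Circuit V F N) (c : N → F) {n : N}
    (h : S.lab n = .add) (n' : N) : K S c n n' = S.wt n n' := by
  simp [K, h]

open Classical in
theorem K_mul {V F N : Type} [Field F] (S : Circuit V F N) (c : N → F) {n : N}
    (h : S.lab n = .mul) (n' : N) : K S c n n' = c (S.lft n) * (if n' = S.rgt n then 1 else 0) +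
        c (S.rgt n) * (if n' = S.lft n then 1 else 0) := by
  simp [K, h]

theorem K_rank {V F N : Type} [Field F] (S : Circuit V F N) (c : N → F) (n n' : N)
    (h : K S c n n' ≠ 0) : S.rank n' < S.rank n := by
  classical
  rcases hl : S.lab n with v | a | _ | _
  · exact absurd (K_var S c hl n') h
  · exact absurd (K_const S c hl n') h
  · rw [K_add S c hl] at h
    exact S.rank_add n n' hl h
  · rw [K_mul S c hl] at h
    have h2 := S.rank_mul n hl
    by_cases h3 : n' = S.rgt n
    · rw [h3]; exact h2.2
    · by_cases h4 : n' = S.lft n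
      · rw [h4]; exact h2.1
      · exact absurd (by simp [h3, h4]) h

section

variable {V F N : Type} [Field F] [Fintype N] [DecidableEq N]

theorem pow_rank (S : Circuit V F N) (c : N → F) (j : ℕ) :
    ∀ n n' : N, (K S c ^ j) n n' ≠ 0 → S.rank n' + j ≤ S.rank n := by
  induction j with
  | zero =>
    intro n n' h
    rw [pow_zero] at h
    have : n = n' := by
      by_contra hne
      exact h (Matrix.one_apply_ne hne)
    simp [this]
  | succ j ih =>
    intro n n' h
    rw [pow_succ', Matrix.mul_apply] at h
    obtain ⟨k, _, hk⟩ := Finset.exists_ne_zero_of_sum_ne_zero h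
    have h1 : K S c n k ≠ 0 := left_ne_zero_of_mul hk
    have h2 : (K S c ^ j) k n' ≠ 0 := right_ne_zero_of_mul hk
    have h3 := K_rank S c n k h1
    have h4 := ih k n' h2
    omega

theorem pow_zero_of_large (S : Circuit V F N) (c : N → F) :
    K S c ^ (∑ n, S.rank n + 1) = 0 := by
  ext n n'
  by_contra h
  have h1 := pow_rank S c _ n n' h
  have h2 : S.rank n ≤ ∑ n, S.rank n :=
    Finset.single_le_sum (f := fun n => S.rank n) (fun _ _ => Nat.zero_le _) (Finset.mem_univ n)
  omega

theorem expand (A : Matrix N N F) (h s : N → F) (hh : h = A.mulVec h + s) (j : ℕ) :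
    h = (∑ i ∈ Finset.range j, A ^ i).mulVec s + (A ^ j).mulVec h := by
  induction j with
  | zero => simp
  | succ j ih =>
    have h1 : (A ^ j).mulVec h = (A ^ j).mulVec s + (A ^ (j + 1)).mulVec h := by
      conv_lhs => rw [hh]
      rw [Matrix.mulVec_add, Matrix.mulVec_mulVec, ← pow_succ, add_comm]
    rw [Finset.sum_range_succ, Matrix.add_mulVec]
    conv_lhs => rw [ih, h1]
    rw [add_assoc]

theorem K_equiv (S : Circuit V F N) (c : N → F) (e : V → V) (π : Equiv.Perm N)
    (hπ : IsAut S e π) (hc : ∀ n, c (π n) = c n) (n n' : N) :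
    K S c (π n) (π n') = K S c n n' := by
  classical
  obtain ⟨h1, h2, h3⟩ := hπ
  have hl' := h1 n
  rcases hl : S.lab n with v | a | _ | _
  · rw [hl] at hl'
    rw [K_var S c hl, K_var S c hl']
  · rw [hl] at hl'
    rw [K_const S c hl, K_const S c hl']
  · rw [hl] at hl'
    rw [K_add S c hl, K_add S c hl', h2 n n' hl]
  · rw [hl] at hl'
    rw [K_mul S c hl, K_mul S c hl']
    rcases h3 n hl with ⟨h4, h5⟩ | ⟨h4, h5⟩
    · rw [h4, h5, hc, hc]
      simp [π.injective.eq_iff]
    · rw [h4, h5, hc, hc]
      simp only [π.injective.eq_iff]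
      ring

theorem pow_equiv (S : Circuit V F N) (c : N → F) (e : V → V) (π : Equiv.Perm N)
    (hπ : IsAut S e π) (hc : ∀ n, c (π n) = c n) (i : ℕ) :
    ∀ n n' : N, (K S c ^ i) (π n) (π n') = (K S c ^ i) n n' := by
  induction i with
  | zero =>
    intro n n'
    simp [Matrix.one_apply, π.injective.eq_iff]
  | succ i ih =>
    intro n n'
    rw [pow_succ', Matrix.mul_apply, Matrix.mul_apply, ← Equiv.sum_comp π]
    refine Finset.sum_congr rfl fun k _ => ?_
    rw [K_equiv S c e π hπ hc, ih]

end

/-- Leaf SY/MAT. -/
theorem mat : MAT := by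
  intro V F N _ _ _ S P c L H hJ
  classical
  obtain ⟨hv, hk, ha, hm⟩ := hJ
  refine ⟨fun n t => if S.lab t = .mul then
    (∑ i ∈ Finset.range (∑ n, S.rank n + 1), K S c ^ i) n t else 0, ?_, ?_, ?_⟩
  · intro n w w' hP
    set s : N → F := fun t => if S.lab t = .mul then
      (L (S.lft t) w * L (S.rgt t) w' + L (S.rgt t) w * L (S.lft t) w') else 0 with hs
    set h : N → F := fun t => H t w w' with hh
    have hrec : h = (K S c).mulVec h + s := by
      funext t
      simp only [Pi.add_apply, Matrix.mulVec, dotProduct]
      rcases hl : S.lab t with v | a | _ | _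
      · have e1 : h t = 0 := (hv t v hl).2.2 w w' hP
        have e2 : s t = 0 := by simp [hs, hl]
        rw [e1, e2, Finset.sum_eq_zero, add_zero]
        intro k _
        rw [K_var S c hl, zero_mul]
      · have e1 : h t = 0 := (hk t a hl).2.2 w w' hP
        have e2 : s t = 0 := by simp [hs, hl]
        rw [e1, e2, Finset.sum_eq_zero, add_zero]
        intro k _
        rw [K_const S c hl, zero_mul]
      · have e1 : h t = ∑ n', S.wt t n' * h n' := (ha t hl).2.2 w w' hP
        have e2 : s t = 0 := by simp [hs, hl]
        rw [e1, e2, add_zero]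
        refine Finset.sum_congr rfl fun k _ => ?_
        rw [K_add S c hl]
      · have e1 : h t = c (S.lft t) * h (S.rgt t) + c (S.rgt t) * h (S.lft t) +
          (L (S.lft t) w * L (S.rgt t) w' + L (S.rgt t) w * L (S.lft t) w') :=
          (hm t hl).2.2 w w' hP
        have e2 : s t = (L (S.lft t) w * L (S.rgt t) w' + L (S.rgt t) w * L (S.lft t) w') := by
          simp [hs, hl]
        rw [e1, e2]
        congr 1
        have e3 : ∀ k, K S c t k * h k = (if k = S.rgt t then c (S.lft t) * h k else 0) +
            (if k = S.lft t then c (S.rgt t) * h k else 0) := by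
          intro k
          rw [K_mul S c hl]
          split_ifs <;> ring
        rw [Finset.sum_congr rfl fun k _ => e3 k, Finset.sum_add_distrib]
        simp
    have hex := expand (K S c) h s hrec (∑ n, S.rank n + 1)
    rw [pow_zero_of_large, Matrix.zero_mulVec, add_zero] at hex
    have hn : h n = ((∑ i ∈ Finset.range (∑ n, S.rank n + 1), K S c ^ i).mulVec s) n := by
      rw [← hex]
    have hn' : H n w w' = h n := rfl
    rw [hn', hn]
    simp only [Matrix.mulVec, dotProduct]
    refine Finset.sum_congr rfl fun t _ => ?_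
    simp only [hs]
    split_ifs <;> simp
  · intro n t ht
    simp [ht]
  · intro e π hπ hc n t
    have hlab : S.lab (π t) = .mul ↔ S.lab t = .mul := by
      rw [hπ.1 t]
      rcases hl : S.lab t with v | a | _ | _ <;> simp [Label.ren]
    simp only [hlab]
    split_ifs with h
    · rw [Matrix.sum_apply, Matrix.sum_apply]
      exact Finset.sum_congr rfl fun i _ => pow_equiv S c e π hπ hc i n t
    · rfl

end Pool.Agent.N222.SY
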